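import Mathlib

/-!
# Units in the real cyclotomic ring and the polynomial `Φ`
-/

set_option autoImplicit false
set_option linter.unusedSectionVars false

namespace H25ES

open Polynomial

theorem dick_two {R : Type*} [CommRing R] (n : ℕ) : (dickson 1 (1 : R) n).eval 2 = 2 := by
  have h := dickson_one_one_eval_add_inv (R := R) 1 1 (one_mul 1) n
  rw [one_pow] at h
  have e : (1 : R) + 1 = 2 := by norm_num
  rwa [e] at h

theorem dick_der_two {R : Type*} [CommRing R] (n : ℕ) :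
    (derivative (dickson 1 (1 : R) n)).eval 2 = (n : R) ^ 2 := by
  induction n using Nat.twoStepInduction with
  | zero => rw [dickson_zero]; simp
  | one => rw [dickson_one]; simp
  | more n ih1 ih2 =>
    rw [dickson_add_two, C_1, one_mul, derivative_sub, derivative_mul, derivative_X, one_mul,
      eval_sub, eval_add, eval_mul, eval_X, dick_two, ih1, ih2]
    push_cast
    ring

theorem dick_neg_two {R : Type*} [CommRing R] (n : ℕ) :
    (dickson 1 (1 : R) n).eval (-2) = 2 * (-1) ^ n := by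
  have h := dickson_one_one_eval_add_inv (R := R) (-1) (-1) (by ring) n
  have e : (-1 : R) + -1 = -2 := by norm_num
  rw [e] at h
  rw [h]
  ring

/-- there is `E` with `D_k - 2 = (X - 2) E` -/
theorem exists_E {R : Type*} [CommRing R] (k : ℕ) :
    ∃ E : R[X], dickson 1 (1 : R) k - 2 = (X - C 2) * E ∧ E.eval 2 = (k : R) ^ 2 := by
  have h : (X - C 2 : R[X]) ∣ dickson 1 (1 : R) k - 2 := by
    rw [dvd_iff_isRoot, IsRoot.def, eval_sub, dick_two]
    simp
  obtain ⟨E, hE⟩ := h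
  refine ⟨E, hE, ?_⟩
  have h2 := congrArg (fun f : R[X] => (derivative f).eval 2) hE
  simp only [derivative_sub, derivative_mul, derivative_X, derivative_C, derivative_ofNat,
    sub_zero, one_mul, eval_add, eval_mul, eval_sub, eval_X, eval_C, sub_self, zero_mul,
    add_zero] at h2
  rw [← h2, dick_der_two]

section
variable {R Ω : Type*} [CommRing R] [IsDomain R] [Field Ω] (ι : R →+* Ω)
  (hι : Function.Injective ι) (p g : ℕ) (hpg : p = 2 * g + 1) (ζ : Ω) (ω : R)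
  (hζ : IsPrimitiveRoot ζ p) (hp : p.Prime) (hω : ι ω = ζ + ζ⁻¹)

include hω in
theorem iota_d (hζ0 : ζ ≠ 0) (k : ℕ) :
    ι ((dickson 1 (1 : R) k).eval ω) = ζ ^ k + (ζ⁻¹) ^ k := by
  rw [← eval₂_at_apply, ← eval_map, map_dickson, map_one, hω]
  exact dickson_one_one_eval_add_inv ζ ζ⁻¹ (mul_inv_cancel₀ hζ0) k

theorem eps_exists (ω : R) (k : ℕ) : ∃ e : R,
    2 - (dickson 1 (1 : R) k).eval ω = (2 - ω) * e ∧ (2 - ω) ∣ e - (k : R) ^ 2 := by
  obtain ⟨E, hE, hE2⟩ := exists_E (R := R) k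
  refine ⟨E.eval ω, ?_, ?_⟩
  · have h2 := congrArg (fun f : R[X] => f.eval ω) hE
    simp only [eval_sub, eval_mul, eval_X, eval_C, eval_ofNat] at h2
    linear_combination -h2
  · rw [← hE2]
    have := E.sub_dvd_eval_sub ω 2
    obtain ⟨c, hc⟩ := this
    exact ⟨-c, by rw [hc]; ring⟩

include hζ hp hω in
theorem pi_ne : (2 - ω : R) ≠ 0 := by
  intro h
  have h1 : ι (2 - ω) = 0 := by rw [h, map_zero]
  have hζ0 : ζ ≠ 0 := hζ.ne_zero hp.ne_zero
  rw [map_sub, map_ofNat, hω] at h1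
  have h2 : (ζ - 1) ^ 2 = 0 := by
    have := mul_inv_cancel₀ hζ0
    linear_combination (-ζ) * h1 - this
  have h3 : ζ = 1 := by
    have : ζ - 1 = 0 := by simpa using h2
    linear_combination this
  exact hζ.ne_one hp.one_lt h3

include hι hζ hp hω in
theorem eps_unit {k : ℕ} (hk : ¬ p ∣ k) {e : R}
    (he : 2 - (dickson 1 (1 : R) k).eval ω = (2 - ω) * e) : IsUnit e := by
  have hζ0 : ζ ≠ 0 := hζ.ne_zero hp.ne_zero
  have hcop : Nat.Coprime k p := ((hp.coprime_iff_not_dvd).2 hk).symm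
  obtain ⟨k', hk'⟩ := Nat.exists_mul_mod_eq_one_of_coprime hcop hp.one_lt
  have hz : ζ ^ (k * k') = ζ := by
    rw [← Nat.div_add_mod (k * k') p, hk'.2, pow_add, pow_mul, hζ.pow_eq_one, one_pow, one_mul,
      pow_one]
  have h1 : (dickson 1 (1 : R) k').eval ((dickson 1 (1 : R) k).eval ω) = ω := by
    apply hι
    rw [← eval₂_at_apply, ← eval_map, map_dickson, map_one, iota_d ι ζ ω hω hζ0 k,
      dickson_one_one_eval_add_inv (ζ ^ k) (ζ⁻¹ ^ k)
        (by rw [← mul_pow, mul_inv_cancel₀ hζ0, one_pow]) k', hω, ← pow_mul, ← pow_mul, hz,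
      inv_pow, hz]
  have h2 := (dickson 1 (1 : R) k').sub_dvd_eval_sub ((dickson 1 (1 : R) k).eval ω) 2
  rw [h1, dick_two] at h2
  obtain ⟨c, hc⟩ := h2
  have hne := pi_ne ι p ζ ω hζ hp hω
  have h3 : (2 - ω) * (e * c) = (2 - ω) * 1 := by
    rw [← mul_assoc, ← he]
    linear_combination hc
  exact IsUnit.of_mul_eq_one _ (mul_left_cancel₀ hne h3)

include hι hζ hp hω in
theorem eps_sub_unit {k l : ℕ} (hkl : k ≤ l) (h1 : ¬ p ∣ k + l) (h2 : ¬ p ∣ l - k) {e f : R}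
    (he : 2 - (dickson 1 (1 : R) k).eval ω = (2 - ω) * e)
    (hf : 2 - (dickson 1 (1 : R) l).eval ω = (2 - ω) * f) : IsUnit (e - f) := by
  have hζ0 : ζ ≠ 0 := hζ.ne_zero hp.ne_zero
  obtain ⟨a, ha, -⟩ := eps_exists ω (k + l)
  obtain ⟨b, hb, -⟩ := eps_exists ω (l - k)
  have ua := eps_unit ι hι p ζ ω hζ hp hω h1 ha
  have ub := eps_unit ι hι p ζ ω hζ hp hω h2 hb
  have hne := pi_ne ι p ζ ω hζ hp hω
  have key : ((dickson 1 (1 : R) l).eval ω - (dickson 1 (1 : R) k).eval ω) ^ 2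
      = (2 - (dickson 1 (1 : R) (k + l)).eval ω) * (2 - (dickson 1 (1 : R) (l - k)).eval ω) := by
    apply hι
    obtain ⟨m, rfl⟩ := Nat.exists_eq_add_of_le hkl
    rw [Nat.add_sub_cancel_left]
    simp only [map_pow, map_sub, map_mul, map_ofNat, iota_d ι ζ ω hω hζ0]
    have hk : ζ ^ k * ζ⁻¹ ^ k = 1 := by rw [← mul_pow, mul_inv_cancel₀ hζ0, one_pow]
    have hm : ζ ^ m * ζ⁻¹ ^ m = 1 := by rw [← mul_pow, mul_inv_cancel₀ hζ0, one_pow]
    simp only [pow_add]
    generalize ζ ^ k = x at *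
    generalize ζ⁻¹ ^ k = x' at *
    generalize ζ ^ m = y at *
    generalize ζ⁻¹ ^ m = y' at *
    linear_combination (2 * (1 + y * y' - y - y')) * hk + (2 - x ^ 2 - x' ^ 2) * hm
  have h3 : (2 - ω) ^ 2 * (e - f) ^ 2 = (2 - ω) ^ 2 * (a * b) := by
    have e1 : (2 - ω) ^ 2 * (e - f) ^ 2 = ((2 - ω) * e - (2 - ω) * f) ^ 2 := by ring
    rw [e1, ← he, ← hf]
    have e2 : (2 - ω) ^ 2 * (a * b) = ((2 - ω) * a) * ((2 - ω) * b) := by ring
    rw [e2, ← ha, ← hb, ← key]
    ring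
  have h4 := mul_left_cancel₀ (pow_ne_zero 2 hne) h3
  have h5 : IsUnit ((e - f) ^ 2) := by rw [h4]; exact ua.mul ub
  exact (isUnit_pow_iff two_ne_zero).1 h5

end

end H25ES
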