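import Mathlib
import Pool.Agent.H25.ES.Cyc

/-!
# The polynomial `Φ` and the Dickson polynomials
-/

set_option autoImplicit false
set_option linter.unusedSectionVars false

namespace H25ES

open Polynomial

theorem comp_lead {R : Type*} [CommRing R] (π : R) (m : ℕ) :
    ((dickson 1 (1 : R) (m + 1)).comp (C π * X - 2) - C (π ^ (m + 1)) * X ^ (m + 1)).degree
      < ((m + 1 : ℕ) : WithBot ℕ) := by
  have c2 : (C 2 : R[X]) = 2 := map_ofNat C 2
  have c4 : (C 4 : R[X]) = 4 := map_ofNat C 4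
  induction m using Nat.twoStepInduction with
  | zero =>
    have e : (dickson 1 (1 : R) (0 + 1)).comp (C π * X - 2) - C (π ^ (0 + 1)) * X ^ (0 + 1)
        = C (-2) := by
      rw [zero_add, dickson_one, X_comp, pow_one, pow_one, C_neg, c2]
      ring
    rw [e]
    exact lt_of_le_of_lt degree_C_le (by norm_num)
  | one =>
    have e : (dickson 1 (1 : R) (1 + 1)).comp (C π * X - 2) - C (π ^ (1 + 1)) * X ^ (1 + 1)
        = C (-4 * π) * X + C 2 := by
      rw [show (1 + 1 : ℕ) = 2 by norm_num, dickson_two]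
      simp only [sub_comp, pow_comp, X_comp, mul_comp, ofNat_comp, C_1, C_mul, C_neg,
        C_pow, c2, c4]
      push_cast
      simp
      ring
    rw [e]
    exact lt_of_le_of_lt degree_linear_le (by norm_num)
  | more n ih1 ih2 =>
    have e : (dickson 1 (1 : R) (n + 2 + 1)).comp (C π * X - 2)
          - C (π ^ (n + 2 + 1)) * X ^ (n + 2 + 1)
        = (C π * X - 2) * ((dickson 1 (1 : R) (n + 1 + 1)).comp (C π * X - 2)
            - C (π ^ (n + 1 + 1)) * X ^ (n + 1 + 1))
          - ((dickson 1 (1 : R) (n + 1)).comp (C π * X - 2) - C (π ^ (n + 1)) * X ^ (n + 1))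
          - (C (2 * π ^ (n + 2)) * X ^ (n + 2) + C (π ^ (n + 1)) * X ^ (n + 1)) := by
      rw [show n + 2 + 1 = (n + 1) + 2 by ring, dickson_add_two]
      simp only [C_1, one_mul, sub_comp, mul_comp, X_comp, C_mul, C_pow]
      rw [c2]
      ring
    rw [e]
    refine lt_of_le_of_lt (degree_sub_le _ _) (max_lt ?_ ?_)
    · refine lt_of_le_of_lt (degree_sub_le _ _) (max_lt ?_ ?_)
      · refine lt_of_le_of_lt (degree_mul_le _ _) ?_
        have h1 : (C π * X - 2 : R[X]).degree ≤ 1 := by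
          have : (C π * X - 2 : R[X]) = C π * X + C (-2) := by rw [C_neg, c2]; ring
          rw [this]
          exact degree_linear_le
        have h2 : (((n + 2 + 1 : ℕ)) : WithBot ℕ) = 1 + ((n + 1 + 1 : ℕ) : WithBot ℕ) := by
          norm_cast
          ring
        rw [h2]
        exact lt_of_le_of_lt (add_le_add h1 le_rfl) (WithBot.add_lt_add_left (by simp) ih2)
      · exact lt_trans ih1 (by norm_cast; omega)
    · refine lt_of_le_of_lt (degree_add_le _ _) (max_lt ?_ ?_)
      · exact lt_of_le_of_lt (degree_C_mul_X_pow_le _ _) (by norm_cast; omega)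
      · exact lt_of_le_of_lt (degree_C_mul_X_pow_le _ _) (by norm_cast; omega)

section
variable {R Ω : Type*} [CommRing R] [IsDomain R] [Field Ω] (ι : R →+* Ω)
  (hι : Function.Injective ι) (p g : ℕ) (hpg : p = 2 * g + 1) (ζ : Ω) (ω : R)
  (hζ : IsPrimitiveRoot ζ p) (hp : p.Prime) (hω : ι ω = ζ + ζ⁻¹) (ε : ℕ → R)
  (hε : ∀ k, 2 - (dickson 1 (1 : R) k).eval ω = (2 - ω) * ε k)

/-- the polynomial `Φ` -/
noncomputable def phi {R : Type*} [CommRing R] (ε : ℕ → R) (g : ℕ) : R[X] :=
  ∏ k ∈ Finset.Icc 1 g, (X - C (ε k))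

theorem phi_monic (ε : ℕ → R) (g : ℕ) : (phi ε g).Monic :=
  monic_prod_of_monic _ _ fun k _ => monic_X_sub_C (ε k)

theorem phi_natDegree (ε : ℕ → R) (g : ℕ) : (phi ε g).natDegree = g := by
  rw [phi, natDegree_prod_of_monic _ _ fun k _ => monic_X_sub_C (ε k)]
  simp

include hι hpg hζ hp hω hε in
theorem eps_diff {k l : ℕ} (hk : k ∈ Finset.Icc 1 g) (hl : l ∈ Finset.Icc 1 g) (hkl : k ≠ l) :
    IsUnit (ε k - ε l) := by
  rw [Finset.mem_Icc] at hk hl
  rcases lt_or_gt_of_ne hkl with h | h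
  · exact eps_sub_unit ι hι p ζ ω hζ hp hω h.le
      (fun hd => absurd (Nat.le_of_dvd (by omega) hd) (by omega))
      (fun hd => absurd (Nat.le_of_dvd (by omega) hd) (by omega)) (hε k) (hε l)
  · have := eps_sub_unit ι hι p ζ ω hζ hp hω h.le
      (fun hd => absurd (Nat.le_of_dvd (by omega) hd) (by omega))
      (fun hd => absurd (Nat.le_of_dvd (by omega) hd) (by omega)) (hε l) (hε k)
    have h2 : ε k - ε l = - (ε l - ε k) := by ring
    rw [h2]
    exact this.neg

include hι hpg hζ hp hω hε in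
theorem eps_isUnit {k : ℕ} (hk : k ∈ Finset.Icc 1 g) : IsUnit (ε k) := by
  rw [Finset.mem_Icc] at hk
  exact eps_unit ι hι p ζ ω hζ hp hω
    (fun hd => absurd (Nat.le_of_dvd (by omega) hd) (by omega)) (hε k)

include hι hpg hζ hp hω hε in
theorem xphi_separable : (X * phi ε g).Separable := by
  have h1 : (phi ε g).Separable := by
    rw [phi]
    refine separable_prod' ?_ fun k _ => separable_X_sub_C
    intro k hk l hl hkl
    exact isCoprime_X_sub_C_of_isUnit_sub (eps_diff ι hι p g hpg ζ ω hζ hp hω ε hε hk hl hkl)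
  have h3 : IsCoprime (X : R[X]) (phi ε g) := by
    rw [phi]
    refine IsCoprime.prod_right fun k hk => ?_
    have h2 : IsCoprime (X - C (0 : R)) (X - C (ε k)) := by
      refine isCoprime_X_sub_C_of_isUnit_sub ?_
      rw [zero_sub]
      exact (eps_isUnit ι hι p g hpg ζ ω hζ hp hω ε hε hk).neg
    rwa [C_0, sub_zero] at h2
  exact Separable.mul separable_X h1 h3

include hι hpg hζ hp hω hε in
theorem phi_id : C ((2 - ω) ^ (g + 1)) * (X * phi ε g)
    = (dickson 1 (1 : R) (g + 1) + dickson 1 (1 : R) g).comp (C (2 - ω) * X - 2) := by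
  classical
  have hζ0 : ζ ≠ 0 := hζ.ne_zero hp.ne_zero
  have hg : 1 ≤ g := by have := hp.two_le; omega
  have hmon : (X * phi ε g).Monic := monic_X.mul (phi_monic ε g)
  have hdeg : (X * phi ε g).natDegree = g + 1 := by
    rw [monic_X.natDegree_mul (phi_monic ε g), natDegree_X, phi_natDegree, add_comm]
  have hinj : Set.InjOn ε (Finset.Icc 1 g : Finset ℕ) := by
    intro k hk l hl hkl
    by_contra hne
    have := eps_diff ι hι p g hpg ζ ω hζ hp hω ε hε hk hl hne
    rw [hkl, sub_self] at this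
    exact not_isUnit_zero this
  have h0 : (0 : R) ∉ (Finset.Icc 1 g).image ε := by
    intro h
    rw [Finset.mem_image] at h
    obtain ⟨k, hk, hk0⟩ := h
    have := eps_isUnit ι hι p g hpg ζ ω hζ hp hω ε hε hk
    rw [hk0] at this
    exact not_isUnit_zero this
  have hcard : (insert 0 ((Finset.Icc 1 g).image ε)).card = g + 1 := by
    rw [Finset.card_insert_of_notMem h0, Finset.card_image_of_injOn hinj]
    simp
  refine eq_of_degree_sub_lt_of_eval_finset_eq (insert 0 ((Finset.Icc 1 g).image ε)) ?_ ?_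
  · rw [hcard]
    have hsplit : C ((2 - ω) ^ (g + 1)) * (X * phi ε g)
        - (dickson 1 (1 : R) (g + 1) + dickson 1 (1 : R) g).comp (C (2 - ω) * X - 2)
        = C ((2 - ω) ^ (g + 1)) * (X * phi ε g - X ^ (g + 1))
          - ((dickson 1 (1 : R) (g + 1)).comp (C (2 - ω) * X - 2)
              - C ((2 - ω) ^ (g + 1)) * X ^ (g + 1))
          - ((dickson 1 (1 : R) g).comp (C (2 - ω) * X - 2)) := by
      rw [add_comp]; ring
    rw [hsplit]
    refine lt_of_le_of_lt (degree_sub_le _ _) (max_lt ?_ ?_)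
    · refine lt_of_le_of_lt (degree_sub_le _ _) (max_lt ?_ ?_)
      · rw [← smul_eq_C_mul]
        refine lt_of_le_of_lt (degree_smul_le _ _) ?_
        have hd : (X * phi ε g).degree = (X ^ (g + 1) : R[X]).degree := by
          rw [degree_X_pow, degree_eq_natDegree hmon.ne_zero, hdeg]
        have := degree_sub_lt_left hd hmon.ne_zero
          (by rw [hmon.leadingCoeff, (monic_X_pow (g + 1)).leadingCoeff])
        rwa [degree_eq_natDegree hmon.ne_zero, hdeg] at this
      · exact comp_lead (2 - ω) g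
    · obtain ⟨m, rfl⟩ := Nat.exists_eq_add_of_le' hg
      have := comp_lead (2 - ω) m
      have h2 : (dickson 1 (1 : R) (m + 1)).comp (C (2 - ω) * X - 2)
          = ((dickson 1 (1 : R) (m + 1)).comp (C (2 - ω) * X - 2)
              - C ((2 - ω) ^ (m + 1)) * X ^ (m + 1)) + C ((2 - ω) ^ (m + 1)) * X ^ (m + 1) := by
        ring
      rw [h2]
      refine lt_of_le_of_lt (degree_add_le _ _) (max_lt (lt_trans this (by norm_cast; omega)) ?_)
      exact lt_of_le_of_lt (degree_C_mul_X_pow_le _ _) (by norm_cast; omega)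
  · intro x hx
    rw [Finset.mem_insert, Finset.mem_image] at hx
    rcases hx with rfl | ⟨k, hk, rfl⟩
    · simp only [eval_mul, eval_X, zero_mul, mul_zero, eval_comp, eval_sub, eval_C, eval_ofNat,
        zero_sub, eval_add, dick_neg_two]
      ring
    · have hroot : (phi ε g).eval (ε k) = 0 := by
        rw [phi, eval_prod]
        exact Finset.prod_eq_zero hk (by simp)
      simp only [eval_mul, hroot, mul_zero, eval_comp, eval_sub, eval_C, eval_ofNat, eval_X,
        eval_add]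
      rw [← hε k]
      have e1 : 2 - (dickson 1 (1 : R) k).eval ω - 2 = - (dickson 1 (1 : R) k).eval ω := by ring
      rw [e1]
      apply hι
      have e2 : ∀ n : ℕ, ι ((dickson 1 (1 : R) n).eval (- (dickson 1 (1 : R) k).eval ω))
          = (- ζ ^ k) ^ n + (- (ζ⁻¹) ^ k) ^ n := by
        intro n
        rw [← eval₂_at_apply, ← eval_map, map_dickson, map_one, map_neg,
          iota_d ι ζ ω hω hζ0 k]
        have e3 : - (ζ ^ k + ζ⁻¹ ^ k) = (- ζ ^ k) + (- (ζ⁻¹) ^ k) := by ring
        rw [e3]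
        exact dickson_one_one_eval_add_inv _ _
          (by rw [neg_mul_neg, ← mul_pow, mul_inv_cancel₀ hζ0, one_pow]) n
      rw [map_zero, map_add, e2, e2]
      have hzp : (ζ ^ k) ^ (2 * g + 1) = 1 := by
        rw [← hpg, ← pow_mul, mul_comm, pow_mul, hζ.pow_eq_one, one_pow]
      have hxy : ζ ^ k * (ζ⁻¹) ^ k = 1 := by rw [← mul_pow, mul_inv_cancel₀ hζ0, one_pow]
      have hzi : ((ζ⁻¹) ^ k) ^ (2 * g + 1) = 1 := by
        have := congrArg (fun t : Ω => t ^ (2 * g + 1)) hxy
        simp only [one_pow] at this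
        rw [mul_pow, hzp, one_mul] at this
        exact this
      generalize ζ ^ k = a at *
      generalize (ζ⁻¹) ^ k = b at *
      have h1 : a ^ (g + 1) = b ^ g := by
        have : a ^ (g + 1) = a ^ (2 * g + 1) * b ^ g := by
          have e4 : a ^ (2 * g + 1) = a ^ (g + 1) * a ^ g := by rw [← pow_add]; congr 1; ring
          rw [e4, mul_assoc, ← mul_pow, hxy, one_pow, mul_one]
        rw [this, hzp, one_mul]
      have h2 : b ^ (g + 1) = a ^ g := by
        have : b ^ (g + 1) = b ^ (2 * g + 1) * a ^ g := by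
          have e4 : b ^ (2 * g + 1) = b ^ (g + 1) * b ^ g := by rw [← pow_add]; congr 1; ring
          rw [e4, mul_assoc, ← mul_pow, mul_comm b a, hxy, one_pow, mul_one]
        rw [this, hzi, one_mul]
      rw [neg_pow a (g + 1), neg_pow b (g + 1), neg_pow a g, neg_pow b g, h1, h2]
      ring

theorem dick_sq (R : Type*) [CommRing R] (g : ℕ) :
    (dickson 1 (1 : R) (g + 1) + dickson 1 (1 : R) g) ^ 2
      = (X + 2) * (dickson 1 (1 : R) (2 * g + 1) + 2) := by
  simp only [dickson_one_one_eq_chebyshev_C]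
  push_cast
  have h1 := Chebyshev.C_mul_C R ((g : ℤ) + 1) ((g : ℤ) + 1)
  have h2 := Chebyshev.C_mul_C R ((g : ℤ) + 1) (g : ℤ)
  have h3 := Chebyshev.C_mul_C R (g : ℤ) (g : ℤ)
  have h4 := Chebyshev.C_mul_C R (2 * (g : ℤ) + 1) 1
  rw [sub_self, Chebyshev.C_zero] at h1 h3
  rw [show (g : ℤ) + 1 - g = 1 by ring, Chebyshev.C_one] at h2
  rw [Chebyshev.C_one, show 2 * (g : ℤ) + 1 - 1 = 2 * g by ring] at h4
  rw [show (g : ℤ) + 1 + (g + 1) = 2 * g + 1 + 1 by ring] at h1
  rw [show (g : ℤ) + 1 + g = 2 * g + 1 by ring] at h2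
  rw [show (g : ℤ) + g = 2 * g by ring] at h3
  linear_combination h1 + 2 * h2 + h3 - h4

include hι hpg hζ hp hω hε in
theorem phi_dick : C ((2 - ω) ^ p) * X * phi ε g ^ 2
    = (dickson 1 (1 : R) p).comp (C (2 - ω) * X - 2) + 2 := by
  have h1 := phi_id ι hι p g hpg ζ ω hζ hp hω ε hε
  have hne : (2 - ω) ≠ 0 := pi_ne ι p ζ ω hζ hp hω
  have h2 : (C (2 - ω) * X : R[X]) ≠ 0 := mul_ne_zero (C_ne_zero.2 hne) X_ne_zero
  apply mul_left_cancel₀ h2
  have h3 := congrArg (fun f : R[X] => f.comp (C (2 - ω) * X - 2)) (dick_sq R g)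
  simp only [pow_comp, mul_comp, add_comp, X_comp, ofNat_comp] at h3
  rw [← hpg, ← add_comp, ← h1] at h3
  have h4 : (C (2 - ω) * X : R[X]) * (C ((2 - ω) ^ p) * X * phi ε g ^ 2)
      = (C ((2 - ω) ^ (g + 1)) * (X * phi ε g)) ^ 2 := by
    have : p + 1 = (g + 1) * 2 := by omega
    simp only [C_pow]
    have h5 : (C (2 - ω) : R[X]) * C (2 - ω) ^ p = (C (2 - ω) ^ (g + 1)) ^ 2 := by
      rw [← pow_succ', this, pow_mul]
    linear_combination X ^ 2 * phi ε g ^ 2 * h5
  rw [h4, h3]
  ring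

/-- `(2 - ω) ∣ p²` and `p ∣ (2 - ω)^p` -/
theorem pi_dvd (h2 : ∀ k, (2 - ω) ∣ ε k - (k : R) ^ 2) (hd : ε p = 0) : (2 - ω) ∣ (p : R) ^ 2 := by
  have := h2 p
  rw [hd, zero_sub, dvd_neg] at this
  exact this

include hι hζ hp hω hε in
theorem eps_p : ε p = 0 := by
  have hζ0 : ζ ≠ 0 := hζ.ne_zero hp.ne_zero
  have hne : (2 - ω) ≠ 0 := pi_ne ι p ζ ω hζ hp hω
  have h1 : (dickson 1 (1 : R) p).eval ω = 2 := by
    apply hι
    rw [iota_d ι ζ ω hω hζ0, inv_pow, hζ.pow_eq_one, map_ofNat, inv_one]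
    norm_num
  have h2 := hε p
  rw [h1, sub_self] at h2
  exact (mul_eq_zero.1 h2.symm).resolve_left hne

end

end H25ES
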