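import Mathlib

/-!
# The curves `y² + Q(x) y = η x` have no singular points
-/

set_option autoImplicit false

namespace H25ES

open Polynomial

theorem dick_val {K : Type*} [Field K] (z : K) (hz : z ≠ 0) (n : ℕ) :
    (dickson 1 (1 : K) n).eval (z + z⁻¹) = z ^ n + (z⁻¹) ^ n :=
  dickson_one_one_eval_add_inv z z⁻¹ (mul_inv_cancel₀ hz) n

/-- derivative of Dickson polynomials at `z + 1/z` -/
theorem dick_der {K : Type*} [Field K] (z : K) (hz : z ≠ 0) (n : ℕ) :
    (derivative (dickson 1 (1 : K) n)).eval (z + z⁻¹) * (z - z⁻¹)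
      = n * (z ^ n - (z⁻¹) ^ n) := by
  induction n using Nat.twoStepInduction with
  | zero =>
    rw [dickson_zero]
    simp
  | one =>
    rw [dickson_one]
    simp
  | more n ih1 ih2 =>
    have h1 := dick_val z hz (n + 1)
    rw [dickson_add_two, C_1, one_mul, derivative_sub, derivative_mul, derivative_X, one_mul,
      eval_sub, eval_add, eval_mul, eval_X, h1]
    have hzi : z * z⁻¹ = 1 := mul_inv_cancel₀ hz
    generalize (derivative (dickson 1 (1 : K) (n + 1))).eval (z + z⁻¹) = A at *
    generalize (derivative (dickson 1 (1 : K) n)).eval (z + z⁻¹) = B at *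
    generalize z⁻¹ = y at *
    push_cast at *
    have e1 : (z ^ (n + 1) + y ^ (n + 1) + (z + y) * A - B) * (z - y)
        = (z ^ (n + 1) + y ^ (n + 1)) * (z - y) + (z + y) * (A * (z - y)) - B * (z - y) := by ring
    rw [e1, ih1, ih2]
    have e2 : z ^ (n + 1) * y = z ^ n := by rw [pow_succ, mul_assoc, hzi, mul_one]
    have e3 : y ^ (n + 1) * z = y ^ n := by rw [pow_succ, mul_assoc, mul_comm y z, hzi, mul_one]
    linear_combination (n : K) * e2 - (n : K) * e3

/-- every element of an algebraically closed field is `z + 1/z` -/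
theorem exists_z {K : Type*} [Field K] [IsAlgClosed K] (Y : K) :
    ∃ z : K, z ≠ 0 ∧ z + z⁻¹ = Y := by
  have hd : (X ^ 2 + (- C Y * X + 1) : K[X]).degree = 2 := by
    have h2 : (- C Y * X + 1 : K[X]) = C (-Y) * X + C 1 := by simp
    rw [h2]
    compute_degree!
  obtain ⟨z, hz⟩ := IsAlgClosed.exists_root (X ^ 2 + (- C Y * X + 1) : K[X]) (by rw [hd]; norm_num)
  have hz' : z ^ 2 + (- Y * z + 1) = 0 := by
    have := hz
    rw [IsRoot.def] at this
    simpa using this
  have hz0 : z ≠ 0 := by
    rintro rfl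
    simp at hz'
  refine ⟨z, hz0, ?_⟩
  field_simp
  linear_combination hz'

/-- the normal form of the curve has no singular point -/
theorem core {K : Type*} [Field K] [IsAlgClosed K] (g : ℕ) (hp : ((2 * g + 1 : ℕ) : K) ≠ 0)
    (u Y y : K) (hu : u ≠ 0) (hu1 : u + 1 ≠ 0)
    (h1 : y ^ 2 + (dickson 1 (1 : K) (g + 1) + dickson 1 (1 : K) g).eval Y * y = u * (Y + 2))
    (h2 : 2 * y + (dickson 1 (1 : K) (g + 1) + dickson 1 (1 : K) g).eval Y = 0)
    (h3 : (derivative (dickson 1 (1 : K) (g + 1) + dickson 1 (1 : K) g)).eval Y * y = u) :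
    False := by
  obtain ⟨z, hz0, rfl⟩ := exists_z Y
  have hv1 := dick_val z hz0 (g + 1)
  have hv0 := dick_val z hz0 g
  have hd1 := dick_der z hz0 (g + 1)
  have hd0 := dick_der z hz0 g
  have hzi : z * z⁻¹ = 1 := mul_inv_cancel₀ hz0
  have hA0 : z ^ g ≠ 0 := pow_ne_zero _ hz0
  have hAI : z ^ g * (z⁻¹) ^ g = 1 := by rw [← mul_pow, hzi, one_pow]
  have hi0 : z⁻¹ ≠ 0 := inv_ne_zero hz0
  rw [eval_add, hv1, hv0] at h1 h2
  rw [derivative_add, eval_add] at h3
  rw [pow_succ z g, pow_succ (z⁻¹) g] at h1 h2 hd1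
  generalize (derivative (dickson 1 (1 : K) (g + 1))).eval (z + z⁻¹) = D1 at *
  generalize (derivative (dickson 1 (1 : K) g)).eval (z + z⁻¹) = D0 at *
  generalize z⁻¹ ^ g = I at *
  generalize z ^ g = A at *
  generalize z⁻¹ = i at *
  push_cast at hd1 hp
  have hD : (D1 + D0) * (z - i) = ((g : K) + 1) * (A * z - I * i) + g * (A - I) := by
    linear_combination hd1 + hd0
  -- `-y² = u (z + i + 2)`
  have h4 : - y ^ 2 = u * (z + i + 2) := by linear_combination h1 - y * h2
  have hz1 : z + 1 ≠ 0 := by
    intro h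
    have hz' : z = -1 := by linear_combination h
    have hi' : i = -1 := by
      rw [hz'] at hzi
      linear_combination -hzi
    rw [hz', hi'] at h4
    have : y ^ 2 = 0 := by linear_combination -h4
    have hy : y = 0 := by simpa using this
    rw [hy, mul_zero] at h3
    exact hu h3.symm
  -- `(A + i I)² = -4 u i`
  have h5 : (A + i * I) ^ 2 = - 4 * u * i := by
    have : (z + 1) ^ 2 * ((A + i * I) ^ 2) = (z + 1) ^ 2 * (- 4 * u * i) := by
      have e1 : (z + 1) * (A + i * I) = - 2 * y := by
        linear_combination h2 + I * hzi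
      have e2 : (z + 1) ^ 2 * i = z + i + 2 := by
        linear_combination (z + 2) * hzi
      calc (z + 1) ^ 2 * ((A + i * I) ^ 2) = ((z + 1) * (A + i * I)) ^ 2 := by ring
        _ = 4 * y ^ 2 := by rw [e1]; ring
        _ = - 4 * u * (z + i + 2) := by linear_combination -4 * h4
        _ = - 4 * u * ((z + 1) ^ 2 * i) := by rw [e2]
        _ = _ := by ring
    exact mul_left_cancel₀ (pow_ne_zero 2 hz1) this
  obtain ⟨B, hB⟩ : ∃ B, B = z * A ^ 2 := ⟨_, rfl⟩
  have hB0 : B ≠ 0 := by rw [hB]; exact mul_ne_zero hz0 (pow_ne_zero 2 hA0)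
  have h6 : (B + 1) ^ 2 = - 4 * u * B := by
    have e1 : B + 1 = z * A * (A + i * I) := by
      rw [hB]
      linear_combination (-1 : K) * (z * i) * hAI - hzi
    have e2 : (z * A) ^ 2 * i = B := by
      rw [hB]
      linear_combination z * A ^ 2 * hzi
    calc (B + 1) ^ 2 = (z * A) ^ 2 * ((A + i * I) ^ 2) := by rw [e1]; ring
      _ = - 4 * u * ((z * A) ^ 2 * i) := by rw [h5]; ring
      _ = _ := by rw [e2]
  by_cases hc : (2 : K) = 0
  · -- characteristic two
    have hB1 : B = 1 := by
      have : (B + 1) ^ 2 = 0 := by linear_combination h6 - 2 * u * B * hc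
      have h7 : B + 1 = 0 := by simpa using this
      linear_combination h7 - hc
    have hzm : z - 1 ≠ 0 := by
      intro h
      exact hz1 (by linear_combination h + hc)
    have hzA : z * A ^ 2 = 1 := by rw [← hB, hB1]
    have hiA : i = A ^ 2 := by linear_combination (-i) * hzA + A ^ 2 * hzi
    have hIA : I = z * A := by linear_combination (-I) * hzA + z * A * hAI
    have h7 : (D1 + D0) ^ 2 * (z + i + 2) = - u := by
      have : u * ((D1 + D0) ^ 2 * (z + i + 2)) = u * (- u) := by
        calc u * ((D1 + D0) ^ 2 * (z + i + 2)) = (D1 + D0) ^ 2 * (u * (z + i + 2)) := by ring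
          _ = - ((D1 + D0) * y) ^ 2 := by rw [← h4]; ring
          _ = u * (- u) := by rw [h3]; ring
      exact mul_left_cancel₀ hu this
    have hD' : (D1 + D0) * (z - i) = A * (z - 1) := by
      rw [hD, hIA, hiA]
      linear_combination (-(g : K) - 1) * A * hzA
    have h8 : A ^ 2 * (z - 1) ^ 2 * (z + i + 2) = - u * (z - i) ^ 2 := by
      calc A ^ 2 * (z - 1) ^ 2 * (z + i + 2) = (A * (z - 1)) ^ 2 * (z + i + 2) := by ring
        _ = ((D1 + D0) * (z - i)) ^ 2 * (z + i + 2) := by rw [hD']
        _ = ((D1 + D0) ^ 2 * (z + i + 2)) * (z - i) ^ 2 := by ring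
        _ = _ := by rw [h7]
    have e2 : (z + 1) ^ 2 * i = z + i + 2 := by
      linear_combination (z + 2) * hzi
    have e3 : z - i = (z - 1) * (z + 1) * i := by
      linear_combination (-z) * hzi
    rw [← e2, e3] at h8
    have h9 : (z + 1) ^ 2 * ((z - 1) ^ 2 * (i * (A ^ 2 + u * i))) = 0 := by
      linear_combination h8
    have h10 : A ^ 2 + u * i = 0 := by
      rcases mul_eq_zero.1 h9 with h | h
      · exact absurd h (pow_ne_zero 2 hz1)
      rcases mul_eq_zero.1 h with h | h
      · exact absurd h (pow_ne_zero 2 hzm)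
      rcases mul_eq_zero.1 h with h | h
      · exact absurd h hi0
      exact h
    have h11 : i * (u + 1) = 0 := by linear_combination h10 + hiA
    rcases mul_eq_zero.1 h11 with h | h
    · exact hi0 h
    · exact hu1 h
  · have h4' : (4 : K) ≠ 0 := by
      intro h
      apply hc
      have : (2 : K) * 2 = 0 := by linear_combination h
      simpa using this
    have hBp : B + 1 ≠ 0 := by
      intro h
      rw [h] at h6
      have : (4 : K) * (u * B) = 0 := by linear_combination h6
      rcases mul_eq_zero.1 this with h | h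
      · exact h4' h
      · exact (mul_ne_zero hu hB0) h
    have h7 : 2 * u * (z - i) = - ((z + 1) * (A + i * I)) *
        (((g : K) + 1) * (A * z - I * i) + g * (A - I)) := by
      rw [← hD]
      have e1 : (z + 1) * (A + i * I) = - 2 * y := by
        linear_combination h2 + I * hzi
      rw [e1]
      linear_combination (-2) * (z - i) * h3
    have h8 : (z + 1) * (2 * u * ((z - 1) * B)) = (z + 1) * (- (B + 1) *
        (((g : K) + 1) * (z * B - 1) + g * (B - z))) := by
      have e1 : B + 1 = z * A * (A + i * I) := by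
        rw [hB]
        linear_combination (-1 : K) * (z * i) * hAI - hzi
      have e2 : (z * A) ^ 2 * i = B := by
        rw [hB]
        linear_combination z * A ^ 2 * hzi
      have e3 : z - i = (z - 1) * (z + 1) * i := by
        linear_combination (-z) * hzi
      have e4 : z * A * (A * z - I * i) = z * B - 1 := by
        rw [hB]
        linear_combination (-1 : K) * (z * i) * hAI - hzi
      have e5 : z * A * (A - I) = B - z := by
        rw [hB]
        linear_combination (-z) * hAI
      calc (z + 1) * (2 * u * ((z - 1) * B))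
          = (z * A) ^ 2 * (2 * u * (z - i)) := by rw [e3, ← e2]; ring
        _ = - (z + 1) * (z * A * (A + i * I)) * (((g : K) + 1) * (z * A * (A * z - I * i))
              + g * (z * A * (A - I))) := by rw [h7]; ring
        _ = _ := by rw [← e1, e4, e5]; ring
    have h9 := mul_left_cancel₀ hz1 h8
    have h10 : (B + 1) * ((B + 1) * (z - 1)) = (B + 1) * (2 * (((g : K) + 1) * (z * B - 1)
        + g * (B - z))) := by
      linear_combination (z - 1) * h6 + (-2) * h9
    have h11 := mul_left_cancel₀ hBp h10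
    have h12 : (2 * (g : K) + 1) * ((z + 1) * (B - 1)) = 0 := by linear_combination -h11
    rcases mul_eq_zero.1 h12 with h | h
    · exact hp h
    rcases mul_eq_zero.1 h with h | h
    · exact hz1 h
    have hB1 : B = 1 := by linear_combination h
    rw [hB1] at h6
    have : (4 : K) * (u + 1) = 0 := by linear_combination h6
    rcases mul_eq_zero.1 this with h | h
    · exact h4' h
    · exact hu1 h

/-- the case of characteristic `2g+1` -/
theorem core0 {K : Type*} [Field K] (g : ℕ) (hp : ((2 * g + 1 : ℕ) : K) = 0)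
    (η x y : K) (hη : η ≠ 0)
    (h1 : y ^ 2 + (x ^ (g + 1) - x) * y = η * x)
    (h2 : 2 * y + (x ^ (g + 1) - x) = 0)
    (h3 : (((g : K) + 1) * x ^ g - 1) * y = η) : False := by
  push_cast at hp
  have hx : x ≠ 0 := by
    rintro rfl
    have : y ^ 2 = 0 := by linear_combination y * h2 - h1
    have hy : y = 0 := by simpa using this
    rw [hy, mul_zero] at h3
    exact hη h3.symm
  obtain ⟨Q, hQ⟩ : ∃ Q, Q = x ^ (g + 1) - x := ⟨_, rfl⟩
  rw [← hQ] at h1 h2
  have h4 : Q ^ 2 = - 4 * (η * x) := by linear_combination (-4) * h1 + (Q + 2 * y) * h2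
  have h5 : (((g : K) + 1) * x ^ g - 1) * Q = - 2 * η := by
    linear_combination (((g : K) + 1) * x ^ g - 1) * h2 - 2 * h3
  have h6 : Q * (2 * x * (((g : K) + 1) * x ^ g - 1)) = Q * Q := by
    linear_combination (2 * x) * h5 - h4
  have hQ0 : Q ≠ 0 := by
    intro h
    rw [h] at h5 h2
    by_cases hc : (2 : K) = 0
    · have hg : (1 : K) = 0 := by linear_combination hp - (g : K) * hc
      exact one_ne_zero hg
    · have : (2 : K) * η = 0 := by linear_combination h5
      rcases mul_eq_zero.1 this with h | h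
      · exact hc h
      · exact hη h
  have h7 := mul_left_cancel₀ hQ0 h6
  rw [hQ, pow_succ] at h7
  have : x = 0 := by
    linear_combination (-1 : K) * h7 + (x * x ^ g) * hp
  exact hx this

theorem smooth_field {k : Type*} [Field k] (g : ℕ) (π η : k) (Q : k[X])
    (hQ : C (π ^ (g + 1)) * Q
      = (dickson 1 (1 : k) (g + 1) + dickson 1 (1 : k) g).comp (C π * X - 2))
    (hη : η ≠ 0) (h1 : 1 + π ^ (2 * g + 1) * η ≠ 0)
    (hπ : π ≠ 0 → ((2 * g + 1 : ℕ) : k) ≠ 0)
    (hπ0 : π = 0 → ((2 * g + 1 : ℕ) : k) = 0 ∧ Q = X ^ (g + 1) - X) (x y : k)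
    (s1 : y ^ 2 + Q.eval x * y = η * x) (s2 : 2 * y + Q.eval x = 0)
    (s3 : (derivative Q).eval x * y = η) : False := by
  by_cases hp : π = 0
  · obtain ⟨hp0, hQ0⟩ := hπ0 hp
    rw [hQ0] at s1 s2 s3
    refine core0 g hp0 η x y hη ?_ ?_ ?_
    · simpa using s1
    · simpa using s2
    · rw [derivative_sub, derivative_X_pow, derivative_X, eval_sub, eval_mul, eval_C, eval_pow,
        eval_X, eval_one] at s3
      have e1 : ((g + 1 : ℕ) : k) = (g : k) + 1 := by push_cast; ring
      rw [e1, Nat.add_sub_cancel] at s3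
      exact s3
  · have hev : π ^ (g + 1) * Q.eval x
        = (dickson 1 (1 : k) (g + 1) + dickson 1 (1 : k) g).eval (π * x - 2) := by
      have := congrArg (fun f : k[X] => f.eval x) hQ
      simp only [eval_mul, eval_C, eval_comp, eval_sub, eval_X, eval_ofNat] at this
      exact this
    have hder : π ^ (g + 1) * (derivative Q).eval x
        = π * (derivative (dickson 1 (1 : k) (g + 1) + dickson 1 (1 : k) g)).eval
          (π * x - 2) := by
      have h2 := congrArg (fun f : k[X] => (derivative f).eval x) hQ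
      simp only [derivative_comp, derivative_sub, derivative_mul, derivative_C,
        derivative_X, zero_mul, zero_add, mul_one, derivative_ofNat, sub_zero, eval_mul, eval_C,
        eval_comp, eval_sub, eval_X, eval_ofNat] at h2
      exact h2
    obtain ⟨f, hf⟩ : ∃ f, f = algebraMap k (AlgebraicClosure k) := ⟨_, rfl⟩
    have hinj : Function.Injective f := by rw [hf]; exact (algebraMap k _).injective
    have hmap : ∀ (P : k[X]) (t : k), (P.map f).eval (f t) = f (P.eval t) := by
      intro P t
      rw [eval_map, eval₂_at_apply]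
    have hne : ∀ t : k, t ≠ 0 → f t ≠ 0 := fun t ht => by
      rw [Ne, map_eq_zero]; exact ht
    have hD : (dickson 1 (1 : AlgebraicClosure k) (g + 1) + dickson 1 (1 : AlgebraicClosure k) g)
        = (dickson 1 (1 : k) (g + 1) + dickson 1 (1 : k) g).map f := by
      rw [Polynomial.map_add, map_dickson, map_dickson, map_one]
    refine core g (K := AlgebraicClosure k) ?_ (f (π ^ (2 * g + 1) * η)) (f (π * x - 2))
      (f (π ^ (g + 1) * y)) (hne _ (mul_ne_zero (pow_ne_zero _ hp) hη)) ?_ ?_ ?_ ?_
    · have := hne _ (hπ hp)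
      rwa [map_natCast] at this
    · rw [← map_one f, ← map_add]
      apply hne
      rw [add_comm]
      exact h1
    · rw [hD, hmap, ← hev]
      have e1 : f (π * x - 2) + 2 = f (π * x) := by
        rw [map_sub, map_ofNat]; ring
      rw [e1, ← map_pow, ← map_mul, ← map_add, ← map_mul]
      congr 1
      linear_combination (π ^ (g + 1)) ^ 2 * s1
    · rw [hD, hmap, ← hev]
      have e1 : (2 : AlgebraicClosure k) = f 2 := (map_ofNat f 2).symm
      rw [e1, ← map_mul, ← map_add, ← map_zero f]
      congr 1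
      linear_combination π ^ (g + 1) * s2
    · rw [hD, derivative_map, hmap, ← map_mul]
      congr 1
      apply mul_left_cancel₀ hp
      linear_combination (- (π ^ (g + 1) * y)) * hder + (π ^ (g + 1)) ^ 2 * s3

end H25ES
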