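import Mathlib
import Pool.Agent.H25.ES.Phi
import Pool.Agent.H25.ES.Smooth

/-!
# Reduction of `Φ` and smoothness along every homomorphism to a field
-/

set_option autoImplicit false
set_option linter.unusedSectionVars false

namespace H25ES

open Polynomial

theorem cast_ne {k : Type*} [Field k] (p : ℕ) [CharP k p] {j : ℕ} (h1 : 0 < j) (h2 : j < p) :
    (j : k) ≠ 0 := by
  intro h
  rw [CharP.cast_eq_zero_iff k p] at h
  exact absurd (Nat.le_of_dvd h1 h) (by omega)

/-- in characteristic `p = 2g+1` the product of `X - k²`, `k ≤ g`, is `X^g - 1` -/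
theorem prod_sq {k : Type*} [Field k] (p g : ℕ) (hpg : p = 2 * g + 1) (hp : p.Prime)
    (h0 : (p : k) = 0) : ∏ j ∈ Finset.Icc 1 g, (X - C ((j : k) ^ 2)) = (X ^ g - 1 : k[X]) := by
  classical
  have hF : Fact p.Prime := ⟨hp⟩
  have hC : CharP k p := ringChar.of_eq (CharP.ringChar_of_prime_eq_zero hp h0)
  have hg : 1 ≤ g := by have := hp.two_le; omega
  have hinj : Set.InjOn (fun j : ℕ => (j : k) ^ 2) (Finset.Icc 1 g : Finset ℕ) := by
    intro a ha b hb hab
    simp only [Finset.coe_Icc, Set.mem_Icc] at ha hb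
    simp only at hab
    have h1 : ((a : k) - b) * ((a : k) + b) = 0 := by linear_combination hab
    rcases mul_eq_zero.1 h1 with h | h
    · by_contra hne
      rcases lt_or_gt_of_ne hne with hlt | hlt
      · have h2 : ((b - a : ℕ) : k) = 0 := by
          rw [Nat.cast_sub hlt.le]
          linear_combination -h
        exact cast_ne p (by omega) (by omega) h2
      · have h2 : ((a - b : ℕ) : k) = 0 := by
          rw [Nat.cast_sub hlt.le]
          linear_combination h
        exact cast_ne p (by omega) (by omega) h2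
    · exfalso
      have h2 : ((a + b : ℕ) : k) = 0 := by push_cast; exact h
      exact cast_ne p (by omega) (by omega) h2
  have hmon : (∏ j ∈ Finset.Icc 1 g, (X - C ((j : k) ^ 2))).Monic :=
    monic_prod_of_monic _ _ fun j _ => monic_X_sub_C _
  have hdeg : (∏ j ∈ Finset.Icc 1 g, (X - C ((j : k) ^ 2))).natDegree = g := by
    rw [natDegree_prod_of_monic _ _ fun j _ => monic_X_sub_C _,
      Finset.sum_congr rfl fun j _ => natDegree_X_sub_C _]
    simp
  have hmon2 : (X ^ g - 1 : k[X]).Monic := by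
    have := monic_X_pow_sub_C (1 : k) (by omega : g ≠ 0)
    rwa [C_1] at this
  have hdeg2 : (X ^ g - 1 : k[X]).natDegree = g := by
    have := natDegree_X_pow_sub_C (R := k) (n := g) (r := 1)
    rwa [C_1] at this
  have hcard : ((Finset.Icc 1 g).image fun j : ℕ => (j : k) ^ 2).card = g := by
    rw [Finset.card_image_of_injOn hinj]
    simp
  refine eq_of_degree_sub_lt_of_eval_finset_eq
    ((Finset.Icc 1 g).image fun j : ℕ => (j : k) ^ 2) ?_ ?_
  · rw [hcard]
    have hd : (∏ j ∈ Finset.Icc 1 g, (X - C ((j : k) ^ 2))).degree = (X ^ g - 1 : k[X]).degree := by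
      rw [degree_eq_natDegree hmon.ne_zero, degree_eq_natDegree hmon2.ne_zero, hdeg, hdeg2]
    have := degree_sub_lt_left hd hmon.ne_zero (by rw [hmon.leadingCoeff, hmon2.leadingCoeff])
    rwa [degree_eq_natDegree hmon.ne_zero, hdeg] at this
  · intro x hx
    rw [Finset.mem_image] at hx
    obtain ⟨j, hj, rfl⟩ := hx
    rw [eval_prod, Finset.prod_eq_zero hj (by simp)]
    rw [Finset.mem_Icc] at hj
    have hj0 : (j : k) ≠ 0 := cast_ne p (by omega) (by omega)
    have hfr : (j : k) ^ p = j := by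
      have := map_natCast (frobenius k p) j
      rwa [frobenius_def] at this
    have h1 : (j : k) ^ (2 * g) = 1 := by
      apply mul_left_cancel₀ hj0
      rw [mul_one, ← pow_succ', ← hpg, hfr]
    rw [eval_sub, eval_pow, eval_X, eval_one, ← pow_mul, h1, sub_self]

section
variable {R Ω : Type*} [CommRing R] [IsDomain R] [Field Ω] (ι : R →+* Ω)
  (hι : Function.Injective ι) (p g : ℕ) (hpg : p = 2 * g + 1) (ζ : Ω) (ω : R)
  (hζ : IsPrimitiveRoot ζ p) (hp : p.Prime) (hω : ι ω = ζ + ζ⁻¹) (ε : ℕ → R)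
  (hε : ∀ k, 2 - (dickson 1 (1 : R) k).eval ω = (2 - ω) * ε k)
  (hε2 : ∀ k, (2 - ω) ∣ ε k - (k : R) ^ 2)

include hι hζ hp hω in
theorem pi_zero_of_p {k : Type*} [Field k] (φ : R →+* k) (h : (p : k) = 0) :
    φ (2 - ω) = 0 := by
  have hF : Fact p.Prime := ⟨hp⟩
  have hC : CharP k p := ringChar.of_eq (CharP.ringChar_of_prime_eq_zero hp h)
  have hζ0 : ζ ≠ 0 := hζ.ne_zero hp.ne_zero
  have h1 : (dickson 1 (1 : R) p).eval ω = 2 := by
    apply hι
    rw [iota_d ι ζ ω hω hζ0, inv_pow, hζ.pow_eq_one, map_ofNat, inv_one]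
    norm_num
  have h2 : (dickson 1 (1 : k) p).eval (φ ω) = 2 := by
    have := congrArg φ h1
    rw [← eval₂_at_apply, ← eval_map, map_dickson, map_one, map_ofNat] at this
    exact this
  rw [dickson_one_one_charP, eval_pow, eval_X] at h2
  have h3 : (φ (2 - ω)) ^ p = 0 := by
    rw [map_sub, map_ofNat, sub_pow_char, h2]
    have : (2 : k) ^ p = 2 := by
      have h4 := map_natCast (frobenius k p) 2
      rw [frobenius_def] at h4
      exact_mod_cast h4
    rw [this, sub_self]
  exact pow_eq_zero_iff hp.ne_zero |>.1 h3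

include hι hζ hp hω hε hε2 in
theorem p_zero_of_pi {k : Type*} [Field k] (φ : R →+* k) (h : φ (2 - ω) = 0) :
    (p : k) = 0 := by
  have h1 := pi_dvd p ω ε hε2 (eps_p ι hι p ζ ω hζ hp hω ε hε)
  obtain ⟨c, hc⟩ := h1
  have h2 := congrArg φ hc
  rw [map_mul, h, zero_mul, map_pow, map_natCast] at h2
  exact pow_eq_zero_iff two_ne_zero |>.1 h2

include hι hpg hζ hp hω hε hε2 in
theorem phi_map_zero {k : Type*} [Field k] (φ : R →+* k) (h : φ (2 - ω) = 0) :
    (X * phi ε g).map φ = X ^ (g + 1) - X := by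
  have hp0 := p_zero_of_pi ι hι p ζ ω hζ hp hω ε hε hε2 φ h
  have h1 : (phi ε g).map φ = X ^ g - 1 := by
    rw [← prod_sq p g hpg hp hp0, phi, Polynomial.map_prod]
    refine Finset.prod_congr rfl fun j _ => ?_
    rw [Polynomial.map_sub, map_X, map_C]
    congr 2
    obtain ⟨c, hc⟩ := hε2 j
    have h2 := congrArg φ hc
    rw [map_mul, h, zero_mul, map_sub, map_pow, map_natCast] at h2
    linear_combination h2
  rw [Polynomial.map_mul, map_X, h1, mul_sub, mul_one, ← pow_succ']

include hι hpg hζ hp hω hε hε2 in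
/-- no singular points along a homomorphism to a field -/
theorem smooth_hom {k : Type*} [Field k] (φ : R →+* k) (η : k) (hη : η ≠ 0)
    (h1 : 1 + φ (2 - ω) ^ p * η ≠ 0) (x y : k)
    (s1 : y ^ 2 + ((X * phi ε g).map φ).eval x * y = η * x)
    (s2 : 2 * y + ((X * phi ε g).map φ).eval x = 0)
    (s3 : (derivative ((X * phi ε g).map φ)).eval x * y = η) : False := by
  obtain ⟨Q, hQ⟩ : ∃ Q, Q = (X * phi ε g).map φ := ⟨_, rfl⟩
  rw [← hQ] at s1 s2 s3
  refine smooth_field g (φ (2 - ω)) η Q ?_ hη ?_ ?_ ?_ x y s1 s2 s3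
  · have h2 := congrArg (Polynomial.map φ) (phi_id ι hι p g hpg ζ ω hζ hp hω ε hε)
    have e1 : (C ((2 - ω) ^ (g + 1)) * (X * phi ε g)).map φ
        = C (φ (2 - ω) ^ (g + 1)) * (X * phi ε g).map φ := by
      rw [Polynomial.map_mul, map_C, map_pow]
    have e2 : (C (2 - ω) * X - 2 : R[X]).map φ = C (φ (2 - ω)) * X - 2 := by
      rw [Polynomial.map_sub, Polynomial.map_mul, map_C, map_X, Polynomial.map_ofNat]
    have e3 : (dickson 1 (1 : R) (g + 1) + dickson 1 (1 : R) g).map φ
        = dickson 1 (1 : k) (g + 1) + dickson 1 (1 : k) g := by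
      rw [Polynomial.map_add, map_dickson, map_dickson, map_one]
    rw [e1, map_comp, e2, e3, ← hQ] at h2
    exact h2
  · rwa [← hpg]
  · intro h hk
    rw [← hpg] at hk
    exact h (pi_zero_of_p ι hι p ζ ω hζ hp hω φ hk)
  · intro h
    rw [hQ]
    refine ⟨?_, phi_map_zero ι hι p g hpg ζ ω hζ hp hω ε hε hε2 φ h⟩
    rw [← hpg]
    exact p_zero_of_pi ι hι p ζ ω hζ hp hω ε hε hε2 φ h

end

end H25ES
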