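import Mathlib

/-!
# Elementary estimates
-/

set_option autoImplicit false

namespace H25ES

/-- size of `√((a²+4)(b²+4)) - ab - 2U` -/
theorem est (P V U W a b s : ℝ) (hP : 0 < P) (hV2 : 2 ≤ V) (hVP : P ^ 2 ≤ V) (hU : V ≤ U)
    (hW : V * U ≤ W) (ha : P * a = W * U + (P ^ 2 - 1)) (hb : P * b = W + (P ^ 2 - 1))
    (hs : 0 ≤ s) (hs2 : s ^ 2 = (a ^ 2 + 4) * (b ^ 2 + 4)) :
    |s - a * b - 2 * U| ≤ (20 + 132 * P ^ 2) / V := by
  have hV0 : 0 < V := by linarith
  have hU0 : 0 < U := by linarith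
  have hP2 : 0 < P ^ 2 := by positivity
  have hW4 : V * V ≤ W := le_trans (mul_le_mul_of_nonneg_left hU hV0.le) hW
  have hVV : 2 * V ≤ V * V := mul_le_mul_of_nonneg_right hV2 hV0.le
  have hWV : 2 * V ≤ W := le_trans hVV hW4
  have hW0 : 0 < W := by linarith
  have hWU : W ≤ W * U := by nlinarith
  have hb1 : W ≤ 2 * (P * b) := by rw [hb]; linarith
  have ha1 : W * U ≤ 2 * (P * a) := by rw [ha]; linarith
  have ha2 : P * a ≤ 2 * (W * U) := by rw [ha]; linarith
  have hb2 : P * b ≤ 2 * W := by rw [hb]; linarith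
  have hb0 : 0 < b := by
    have : 0 < P * b := by linarith
    exact (mul_pos_iff_of_pos_left hP).1 this
  have ha0 : 0 < a := by
    have : 0 < P * a := by linarith
    exact (mul_pos_iff_of_pos_left hP).1 this
  obtain ⟨q, hq⟩ : ∃ q, q = a / b := ⟨_, rfl⟩
  have hqb : q * b = a := by rw [hq]; field_simp
  have hq0 : 0 < q := by rw [hq]; positivity
  have hab : 0 < a * b := mul_pos ha0 hb0
  -- first part
  have h1 : |s - (a * b + 2 * q)| ≤ (16 + 128 * P ^ 2) / V := by
    have e1 : (s - (a * b + 2 * q)) * (s + (a * b + 2 * q))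
        = 4 * b ^ 2 + 16 - 4 * q ^ 2 := by
      have : q * b * a = a * a := by rw [hqb]
      have e2 : (a * b) * q = a * a := by linear_combination this
      linear_combination hs2 - 4 * e2
    have hsum : a * b ≤ s + (a * b + 2 * q) := by linarith
    have h2 : |s - (a * b + 2 * q)| * (a * b) ≤ 4 * b ^ 2 + 16 + 4 * q ^ 2 := by
      calc |s - (a * b + 2 * q)| * (a * b)
          ≤ |s - (a * b + 2 * q)| * (s + (a * b + 2 * q)) :=
            mul_le_mul_of_nonneg_left hsum (abs_nonneg _)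
        _ = |s - (a * b + 2 * q)| * |s + (a * b + 2 * q)| := by
            rw [abs_of_pos (by linarith : 0 < s + (a * b + 2 * q))]
        _ = |4 * b ^ 2 + 16 - 4 * q ^ 2| := by rw [← abs_mul, e1]
        _ ≤ 4 * b ^ 2 + 16 + 4 * q ^ 2 := by
            rw [abs_le]
            constructor <;> nlinarith [sq_nonneg b, sq_nonneg q]
    have hbV : b * V ≤ 4 * a := by
      have : P * (b * V) ≤ P * (4 * a) := by
        calc P * (b * V) = P * b * V := by ring
          _ ≤ 2 * W * V := mul_le_mul_of_nonneg_right hb2 hV0.le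
          _ ≤ 2 * W * U := mul_le_mul_of_nonneg_left hU (by positivity)
          _ ≤ P * (4 * a) := by linarith
      exact le_of_mul_le_mul_left this hP
    have t1 : 4 * b ^ 2 * V ≤ 16 * (a * b) := by
      calc 4 * b ^ 2 * V = 4 * b * (b * V) := by ring
        _ ≤ 4 * b * (4 * a) := mul_le_mul_of_nonneg_left hbV (by positivity)
        _ = 16 * (a * b) := by ring
    have t2 : 16 * V ≤ 64 * P ^ 2 * (a * b) := by
      have h3 : W * U * W ≤ (2 * (P * a)) * (2 * (P * b)) :=
        mul_le_mul ha1 hb1 hW0.le (by positivity)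
      have h4 : V ≤ W * U * W := by nlinarith
      nlinarith
    have t3 : 4 * q ^ 2 * V ≤ 64 * P ^ 2 * (a * b) := by
      have h3 : a * V ≤ 16 * P ^ 2 * b ^ 3 := by
        have h4 : P * (a * V) ≤ P * (16 * P ^ 2 * b ^ 3) := by
          have h5 : W * W * W ≤ (2 * (P * b)) * (2 * (P * b)) * (2 * (P * b)) := by gcongr
          have h6 : U * V ≤ W := by linarith
          calc P * (a * V) = P * a * V := by ring
            _ ≤ 2 * (W * U) * V := mul_le_mul_of_nonneg_right ha2 hV0.le
            _ = 2 * (W * (U * V)) := by ring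
            _ ≤ 2 * (W * W) := by gcongr
            _ ≤ 2 * (W * W * W) := by nlinarith [mul_pos hW0 hW0]
            _ ≤ 2 * ((2 * (P * b)) * (2 * (P * b)) * (2 * (P * b))) := by linarith
            _ = P * (16 * P ^ 2 * b ^ 3) := by ring
        exact le_of_mul_le_mul_left h4 hP
      have h7 : b ^ 2 * (4 * q ^ 2 * V) ≤ b ^ 2 * (64 * P ^ 2 * (a * b)) := by
        calc b ^ 2 * (4 * q ^ 2 * V) = 4 * a * (a * V) := by rw [← hqb]; ring
          _ ≤ 4 * a * (16 * P ^ 2 * b ^ 3) := mul_le_mul_of_nonneg_left h3 (by positivity)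
          _ = b ^ 2 * (64 * P ^ 2 * (a * b)) := by ring
      exact le_of_mul_le_mul_left h7 (by positivity)
    rw [le_div_iff₀ hV0]
    have h8 : (a * b) * (|s - (a * b + 2 * q)| * V) ≤ (a * b) * (16 + 128 * P ^ 2) := by
      calc (a * b) * (|s - (a * b + 2 * q)| * V)
          = (|s - (a * b + 2 * q)| * (a * b)) * V := by ring
        _ ≤ (4 * b ^ 2 + 16 + 4 * q ^ 2) * V := mul_le_mul_of_nonneg_right h2 hV0.le
        _ ≤ (a * b) * (16 + 128 * P ^ 2) := by linarith
    exact le_of_mul_le_mul_left h8 hab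
  -- second part
  have h2 : |2 * (q - U)| ≤ (4 + 4 * P ^ 2) / V := by
    have e1 : (P * b) * (q - U) = (P ^ 2 - 1) * (1 - U) := by
      have : P * (q * b) = P * a := by rw [hqb]
      linear_combination this + ha - U * hb
    have h3 : (P * b) * |q - U| ≤ (P ^ 2 + 1) * U := by
      calc (P * b) * |q - U| = |(P * b) * (q - U)| := by
            rw [abs_mul, abs_of_pos (by positivity : 0 < P * b)]
        _ = |P ^ 2 - 1| * |1 - U| := by rw [e1, abs_mul]
        _ ≤ (P ^ 2 + 1) * U := by
            apply mul_le_mul _ _ (abs_nonneg _) (by positivity)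
            · rw [abs_le]; constructor <;> linarith
            · rw [abs_le]; constructor <;> linarith
    rw [abs_mul, abs_two, le_div_iff₀ hV0]
    have h4 : W * (2 * |q - U| * V) ≤ W * (4 + 4 * P ^ 2) := by
      have hn := abs_nonneg (q - U)
      calc W * (2 * |q - U| * V) ≤ (2 * (P * b)) * (2 * |q - U| * V) := by gcongr
        _ = 4 * V * ((P * b) * |q - U|) := by ring
        _ ≤ 4 * V * ((P ^ 2 + 1) * U) := by gcongr
        _ = (4 + 4 * P ^ 2) * (V * U) := by ring
        _ ≤ (4 + 4 * P ^ 2) * W := by gcongr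
        _ = W * (4 + 4 * P ^ 2) := by ring
    exact le_of_mul_le_mul_left h4 hW0
  calc |s - a * b - 2 * U| = |(s - (a * b + 2 * q)) + 2 * (q - U)| := by congr 1; ring
    _ ≤ |s - (a * b + 2 * q)| + |2 * (q - U)| := abs_add_le _ _
    _ ≤ (16 + 128 * P ^ 2) / V + (4 + 4 * P ^ 2) / V := add_le_add h1 h2
    _ = (20 + 132 * P ^ 2) / V := by rw [← add_div]; congr 1; ring

end H25ES
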