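import Mathlib

/-!
# A real estimate which excludes roots
-/

set_option autoImplicit false

namespace H25ES

theorem near (a s : ℝ) (ha : 0 < a) (hs : 0 ≤ s) (h : s ^ 2 = a ^ 2 + 4) : |s - a| ≤ 2 / a := by
  have h1 : a ≤ s := by
    by_contra hc
    have : s < a := not_le.1 hc
    nlinarith
  rw [abs_of_nonneg (by linarith), le_div_iff₀ ha]
  nlinarith

theorem noroot_real (g : ℕ) (hg : 1 ≤ g) (E κ c1 C1 : ℝ) (hE : 0 ≤ E) (hκ : 0 < κ)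
    (hc1 : 0 < c1) :
    ∃ H0 : ℝ, ∀ h : ℝ, H0 ≤ h → ∀ X X' : ℝ, 0 ≤ X → 0 ≤ X' → ∀ t t' : ℕ → ℝ,
      (∀ k ∈ Finset.Icc 1 g, 0 ≤ t k ∧ X - E ≤ t k ∧ t k ≤ X + E) →
      (∀ k ∈ Finset.Icc 1 g, 0 ≤ t' k) →
      (∀ k ∈ Finset.Icc 1 g, t' k < κ → κ ≤ X') →
      X * ∏ k ∈ Finset.Icc 1 g, (t k) ^ 2 = 4 * h →
      X' * (∏ k ∈ Finset.Icc 1 g, (t' k) ^ 2) * h = 4 → c1 ≤ X * X' → X * X' ≤ C1 → False := by
  obtain ⟨K, hK⟩ : ∃ K, K = |C1| / κ + 1 := ⟨_, rfl⟩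
  have hK0 : 1 ≤ K := by
    rw [hK]
    have : 0 ≤ |C1| / κ := by positivity
    linarith
  obtain ⟨m0, hm0⟩ : ∃ m0, m0 = max (2 * E) 2 := ⟨_, rfl⟩
  have hm02 : 2 ≤ m0 := by rw [hm0]; exact le_max_right _ _
  have hm0E : 2 * E ≤ m0 := by rw [hm0]; exact le_max_left _ _
  have hκg : 0 < κ ^ (2 * g) := by positivity
  refine ⟨1 + (K + E) ^ (2 * g + 1) + 4 * m0 / (κ ^ (2 * g) * c1)
    + 1024 / ((κ ^ (2 * g)) ^ 3 * c1 ^ 3), ?_⟩
  intro h hh X X' hX hX' t t' ht ht' hsm e1 e2 hlow hup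
  have p1 : 0 ≤ (K + E) ^ (2 * g + 1) := by positivity
  have p2 : 0 ≤ 4 * m0 / (κ ^ (2 * g) * c1) := by positivity
  have p3 : 0 ≤ 1024 / ((κ ^ (2 * g)) ^ 3 * c1 ^ 3) := by positivity
  have h1 : 1 ≤ h := by linarith
  have hKX : K ≤ X := by
    by_contra hc
    have hc' : X < K := not_le.1 hc
    have hprod : ∏ k ∈ Finset.Icc 1 g, (t k) ^ 2 ≤ ∏ _k ∈ Finset.Icc 1 g, (K + E) ^ 2 := by
      refine Finset.prod_le_prod (fun k _ => sq_nonneg _) fun k hk => ?_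
      obtain ⟨h2, -, h3⟩ := ht k hk
      exact pow_le_pow_left₀ h2 (by linarith) 2
    rw [Finset.prod_const, Nat.card_Icc, Nat.add_sub_cancel, ← pow_mul] at hprod
    have h4 : X * ∏ k ∈ Finset.Icc 1 g, (t k) ^ 2 ≤ (K + E) * (K + E) ^ (2 * g) :=
      mul_le_mul (by linarith) hprod (Finset.prod_nonneg fun k _ => sq_nonneg _) (by linarith)
    rw [e1, ← pow_succ'] at h4
    linarith
  by_cases hA : ∃ k ∈ Finset.Icc 1 g, t' k < κ
  · obtain ⟨k, hk, hkk⟩ := hA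
    have h2 := hsm k hk hkk
    have h3 : K * κ ≤ X * X' := mul_le_mul hKX h2 hκ.le hX
    have h4 : K * κ = |C1| + κ := by rw [hK]; field_simp
    have h5 := le_abs_self C1
    linarith
  · push Not at hA
    have hprod : κ ^ (2 * g) ≤ ∏ k ∈ Finset.Icc 1 g, (t' k) ^ 2 := by
      have h2 : ∏ _k ∈ Finset.Icc 1 g, κ ^ 2 ≤ ∏ k ∈ Finset.Icc 1 g, (t' k) ^ 2 :=
        Finset.prod_le_prod (fun k _ => sq_nonneg _) fun k hk =>
          pow_le_pow_left₀ hκ.le (hA k hk) 2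
      rwa [Finset.prod_const, Nat.card_Icc, Nat.add_sub_cancel, ← pow_mul] at h2
    have h2 : X' * κ ^ (2 * g) * h ≤ 4 := by
      rw [← e2]
      gcongr
    rcases le_or_gt X m0 with hXm | hXm
    · have h3 : X * X' * (κ ^ (2 * g) * h) ≤ m0 * 4 := by
        calc X * X' * (κ ^ (2 * g) * h) = X * (X' * κ ^ (2 * g) * h) := by ring
          _ ≤ m0 * 4 := mul_le_mul hXm h2 (by positivity) (by linarith)
      have h4 : 4 * m0 < κ ^ (2 * g) * c1 * h := by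
        have : 4 * m0 / (κ ^ (2 * g) * c1) < h := by linarith
        rw [div_lt_iff₀ (by positivity)] at this
        linarith
      have h5 : c1 * (κ ^ (2 * g) * h) ≤ X * X' * (κ ^ (2 * g) * h) := by gcongr
      linarith
    · have hXE : ∀ k ∈ Finset.Icc 1 g, X / 2 ≤ t k := fun k hk => by
        have := (ht k hk).2.1
        linarith
      have h3 : (X / 2) ^ 2 ≤ ∏ k ∈ Finset.Icc 1 g, (t k) ^ 2 := by
        have h4 : ∏ _k ∈ Finset.Icc 1 g, (X / 2) ^ 2 ≤ ∏ k ∈ Finset.Icc 1 g, (t k) ^ 2 :=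
          Finset.prod_le_prod (fun k _ => sq_nonneg _) fun k hk =>
            pow_le_pow_left₀ (by linarith) (hXE k hk) 2
        rw [Finset.prod_const, Nat.card_Icc, Nat.add_sub_cancel] at h4
        refine le_trans ?_ h4
        have h5 : 1 ≤ (X / 2) ^ 2 := by nlinarith
        calc (X / 2) ^ 2 = ((X / 2) ^ 2) ^ 1 := (pow_one _).symm
          _ ≤ ((X / 2) ^ 2) ^ g := pow_le_pow_right₀ h5 hg
      have h4 : X * (X / 2) ^ 2 ≤ 4 * h := by rw [← e1]; gcongr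
      have h5 : X ^ 3 ≤ 16 * h := by nlinarith
      have h6 : (X * X') ^ 3 * ((κ ^ (2 * g)) ^ 3 * h ^ 2) ≤ 1024 := by
        have h7 : (X' * κ ^ (2 * g) * h) ^ 3 ≤ 4 ^ 3 := pow_le_pow_left₀ (by positivity) h2 3
        have h8 : h * ((X * X') ^ 3 * ((κ ^ (2 * g)) ^ 3 * h ^ 2)) ≤ h * 1024 := by
          calc h * ((X * X') ^ 3 * ((κ ^ (2 * g)) ^ 3 * h ^ 2))
              = X ^ 3 * (X' * κ ^ (2 * g) * h) ^ 3 := by ring
            _ ≤ (16 * h) * 4 ^ 3 := mul_le_mul h5 h7 (by positivity) (by linarith)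
            _ = h * 1024 := by ring
        exact le_of_mul_le_mul_left h8 (by linarith)
      have h7 : c1 ^ 3 ≤ (X * X') ^ 3 := pow_le_pow_left₀ hc1.le hlow 3
      have h8 : 1024 < (κ ^ (2 * g)) ^ 3 * c1 ^ 3 * h := by
        have : 1024 / ((κ ^ (2 * g)) ^ 3 * c1 ^ 3) < h := by linarith
        rw [div_lt_iff₀ (by positivity)] at this
        linarith
      have h9 : c1 ^ 3 * ((κ ^ (2 * g)) ^ 3 * h ^ 2) ≤ (X * X') ^ 3 * ((κ ^ (2 * g)) ^ 3 * h ^ 2) := by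
        gcongr
      have h10 : (κ ^ (2 * g)) ^ 3 * c1 ^ 3 * h ≤ (κ ^ (2 * g)) ^ 3 * c1 ^ 3 * h * h := by
        have : 0 ≤ (κ ^ (2 * g)) ^ 3 * c1 ^ 3 * h := by positivity
        nlinarith
      nlinarith

theorem bounds_real (g : ℕ) (E A : ℝ) (hE : 0 ≤ E) (hA : 0 ≤ A) :
    ∃ ρ R : ℝ, 0 < ρ ∧ 1 ≤ R ∧ ∀ h : ℝ, 1 / (A + 1) ≤ h → h ≤ A + 1 → ∀ X : ℝ, 0 ≤ X →
      ∀ t : ℕ → ℝ, (∀ k ∈ Finset.Icc 1 g, 0 ≤ t k ∧ X - E ≤ t k ∧ t k ≤ X + E) →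
      X * ∏ k ∈ Finset.Icc 1 g, (t k) ^ 2 = 4 * h → ρ ≤ X ∧ X ≤ R := by
  obtain ⟨R, hR⟩ : ∃ R, R = max (E + 1) (4 * (A + 1)) := ⟨_, rfl⟩
  have hRE : E + 1 ≤ R := by rw [hR]; exact le_max_left _ _
  have hRA : 4 * (A + 1) ≤ R := by rw [hR]; exact le_max_right _ _
  have hR1 : 1 ≤ R := by linarith
  refine ⟨4 / ((A + 1) * (R + E) ^ (2 * g)), R, by positivity, hR1, ?_⟩
  intro h h1 h2 X hX t ht e1
  have hXR : X ≤ R := by
    rcases le_or_gt X (E + 1) with hc | hc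
    · exact le_trans hc hRE
    · have h3 : ∏ _k ∈ Finset.Icc 1 g, (1 : ℝ) ≤ ∏ k ∈ Finset.Icc 1 g, (t k) ^ 2 :=
        Finset.prod_le_prod (fun k _ => zero_le_one) fun k hk => by
          have := (ht k hk).2.1
          nlinarith
      rw [Finset.prod_const_one] at h3
      have h4 : X * 1 ≤ X * ∏ k ∈ Finset.Icc 1 g, (t k) ^ 2 := by gcongr
      rw [e1, mul_one] at h4
      linarith
  refine ⟨?_, hXR⟩
  have hprod : ∏ k ∈ Finset.Icc 1 g, (t k) ^ 2 ≤ ∏ _k ∈ Finset.Icc 1 g, (R + E) ^ 2 := by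
    refine Finset.prod_le_prod (fun k _ => sq_nonneg _) fun k hk => ?_
    obtain ⟨h2, -, h3⟩ := ht k hk
    exact pow_le_pow_left₀ h2 (by linarith) 2
  rw [Finset.prod_const, Nat.card_Icc, Nat.add_sub_cancel, ← pow_mul] at hprod
  have h4 : 4 * h ≤ X * (R + E) ^ (2 * g) := by rw [← e1]; gcongr
  have hA1 : 0 < A + 1 := by linarith
  rw [div_le_iff₀ hA1] at h1
  rw [div_le_iff₀ (by positivity)]
  calc (4 : ℝ) = 4 * 1 := by ring
    _ ≤ 4 * (h * (A + 1)) := by gcongr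
    _ = (4 * h) * (A + 1) := by ring
    _ ≤ (X * (R + E) ^ (2 * g)) * (A + 1) := by gcongr
    _ = X * ((A + 1) * (R + E) ^ (2 * g)) := by ring

end H25ES
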