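import Mathlib

/-!
# Small algebraic integers in a totally real field vanish
-/

set_option autoImplicit false
set_option linter.unusedSectionVars false

namespace H25ES

open NumberField

section
variable {K : Type*} [Field K] [NumberField K] [IsTotallyReal K]

theorem mult_one (v : InfinitePlace K) : v.mult = 1 :=
  InfinitePlace.mult_isReal ⟨v, IsTotallyReal.isReal v⟩

theorem norm_lower (e : 𝓞 K) (he : e ≠ 0) : 1 ≤ ∏ v : InfinitePlace K, v (e : K) := by
  have h1 := InfinitePlace.prod_eq_abs_norm (e : K)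
  simp only [mult_one, pow_one] at h1
  rw [h1, ← Algebra.coe_norm_int]
  have h2 : Algebra.norm ℤ e ≠ 0 := Algebra.norm_ne_zero_iff.2 he
  have h3 : 1 ≤ |Algebra.norm ℤ e| := Int.one_le_abs h2
  exact_mod_cast h3

theorem small_zero (w : InfinitePlace K) (e : 𝓞 K) (M : ℝ) (hM : 1 ≤ M)
    (h : ∀ v : InfinitePlace K, v ≠ w → v (e : K) ≤ M)
    (h1 : w (e : K) * M ^ (Fintype.card (InfinitePlace K)) < 1) : e = 0 := by
  classical
  by_contra he
  have h2 := norm_lower e he
  rw [← Finset.mul_prod_erase Finset.univ _ (Finset.mem_univ w)] at h2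
  have h3 : ∏ v ∈ Finset.univ.erase w, v (e : K) ≤ ∏ _v ∈ Finset.univ.erase w, M :=
    Finset.prod_le_prod (fun v _ => apply_nonneg v _) fun v hv =>
      h v (Finset.ne_of_mem_erase hv)
  rw [Finset.prod_const] at h3
  have h4 : M ^ (Finset.univ.erase w).card ≤ M ^ (Fintype.card (InfinitePlace K)) :=
    pow_le_pow_right₀ hM (Finset.card_le_univ _)
  have h5 : w (e : K) * ∏ v ∈ Finset.univ.erase w, v (e : K)
      ≤ w (e : K) * M ^ (Fintype.card (InfinitePlace K)) :=
    mul_le_mul_of_nonneg_left (le_trans h3 h4) (apply_nonneg w _)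
  linarith

end

end H25ES
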