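import Mathlib
import Pool.Agent.H25.ES.Norm

/-!
# Units which are large at one place and small at all others
-/

set_option autoImplicit false

namespace H25ES

open NumberField

section
variable {K : Type*} [Field K] [NumberField K] [IsTotallyReal K]

theorem exists_other (hK : 1 < Module.finrank ℚ K) (w : InfinitePlace K) :
    ∃ v : InfinitePlace K, v ≠ w := by
  classical
  have h1 := InfinitePlace.card_add_two_mul_card_eq_rank K
  have h2 := InfinitePlace.card_eq_nrRealPlaces_add_nrComplexPlaces K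
  have h3 := IsTotallyReal.nrComplexPlaces_eq_zero K
  have h4 : 1 < Fintype.card (InfinitePlace K) := by omega
  exact Fintype.exists_ne_of_one_lt_card h4 w

theorem exists_big (hK : 1 < Module.finrank ℚ K) (w : InfinitePlace K) (b : 𝓞 K) (hb : b ≠ 0)
    (V0 : ℝ) : ∃ v : (𝓞 K)ˣ, b ∣ ((v : 𝓞 K) - 1) ∧
      (∀ σ : K →+* ℝ, 0 < σ ((v : 𝓞 K) : K)) ∧ V0 ≤ w ((v : 𝓞 K) : K) ∧
      ∀ v' : InfinitePlace K, v' ≠ w → v' ((v : 𝓞 K) : K) ≤ 1 := by
  classical
  obtain ⟨u, hu⟩ := Units.dirichletUnitTheorem.exists_unit K w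
  have hpos : ∀ v' : InfinitePlace K, 0 < v' ((u : 𝓞 K) : K) := fun v' =>
    InfinitePlace.pos_iff.2 (by simp)
  have hlt : ∀ v' : InfinitePlace K, v' ≠ w → v' ((u : 𝓞 K) : K) < 1 := fun v' hv' => by
    have := hu v' hv'
    rw [Real.log_neg_iff (hpos v')] at this
    exact this
  have hbig : 1 < w ((u : 𝓞 K) : K) := by
    have h1 := norm_lower (u : 𝓞 K) u.ne_zero
    rw [← Finset.mul_prod_erase Finset.univ _ (Finset.mem_univ w)] at h1
    have h2 : ∏ v ∈ Finset.univ.erase w, v ((u : 𝓞 K) : K) < 1 := by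
      obtain ⟨v0, hv0⟩ := exists_other hK w
      have hmem : v0 ∈ Finset.univ.erase w := Finset.mem_erase.2 ⟨hv0, Finset.mem_univ _⟩
      calc ∏ v ∈ Finset.univ.erase w, v ((u : 𝓞 K) : K)
          < ∏ _v ∈ Finset.univ.erase w, (1 : ℝ) :=
            Finset.prod_lt_prod (fun v _ => hpos v)
              (fun v hv => (hlt v (Finset.ne_of_mem_erase hv)).le) ⟨v0, hmem, hlt v0 hv0⟩
        _ = 1 := Finset.prod_const_one
    by_contra hc
    have hc' : w ((u : 𝓞 K) : K) ≤ 1 := not_lt.1 hc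
    have h3 : 0 ≤ ∏ v ∈ Finset.univ.erase w, v ((u : 𝓞 K) : K) :=
      Finset.prod_nonneg fun v _ => (hpos v).le
    have h4 := mul_le_mul_of_nonneg_right hc' h3
    linarith
  obtain ⟨n, hn0, hn⟩ : ∃ n : ℕ, 0 < n ∧ b ∣ (((u ^ n : (𝓞 K)ˣ) : 𝓞 K) - 1) := by
    have hI : (Ideal.span {b} : Ideal (𝓞 K)) ≠ ⊥ := by
      rwa [Ne, Ideal.span_singleton_eq_bot]
    have hfin : Finite (𝓞 K ⧸ (Ideal.span {b} : Ideal (𝓞 K))) :=
      Ideal.finiteQuotientOfFreeOfNeBot _ hI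
    obtain ⟨x, hx⟩ : ∃ x, x = Units.map
      (Ideal.Quotient.mk (Ideal.span {b} : Ideal (𝓞 K))).toMonoidHom u := ⟨_, rfl⟩
    have hx1 := isOfFinOrder_of_finite x
    refine ⟨orderOf x, hx1.orderOf_pos, ?_⟩
    rw [← Ideal.mem_span_singleton, ← Ideal.Quotient.eq, map_one]
    have h1 := congrArg Units.val (pow_orderOf_eq_one x)
    rw [Units.val_pow_eq_pow_val, Units.val_one] at h1
    rw [Units.val_pow_eq_pow_val, map_pow]
    rw [hx] at h1 ⊢
    exact h1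
  obtain ⟨m, hm⟩ := pow_unbounded_of_one_lt V0 hbig
  have hdvd : ∀ j : ℕ, b ∣ (((u ^ (n * j) : (𝓞 K)ˣ) : 𝓞 K) - 1) := fun j => by
    refine dvd_trans hn ?_
    rw [Units.val_pow_eq_pow_val, Units.val_pow_eq_pow_val, pow_mul]
    have := sub_dvd_pow_sub_pow ((u : 𝓞 K) ^ n) 1 j
    rwa [one_pow] at this
  refine ⟨u ^ (n * (2 * m)), hdvd _, ?_, ?_, ?_⟩
  · intro σ
    have h1 : (((u ^ (n * (2 * m)) : (𝓞 K)ˣ) : 𝓞 K) : K)
        = (((u : 𝓞 K) : K) ^ (n * m)) ^ 2 := by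
      push_cast
      ring
    rw [h1, map_pow]
    have h2 : σ (((u : 𝓞 K) : K) ^ (n * m)) ≠ 0 := by
      rw [Ne, map_eq_zero]
      exact pow_ne_zero _ (by simp)
    positivity
  · have h1 : w (((u ^ (n * (2 * m)) : (𝓞 K)ˣ) : 𝓞 K) : K) = w ((u : 𝓞 K) : K) ^ (n * (2 * m)) := by
      push_cast
      rw [map_pow]
    rw [h1]
    refine le_trans hm.le (pow_le_pow_right₀ hbig.le ?_)
    nlinarith
  · intro v' hv'
    have h1 : v' (((u ^ (n * (2 * m)) : (𝓞 K)ˣ) : 𝓞 K) : K)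
        = v' ((u : 𝓞 K) : K) ^ (n * (2 * m)) := by
      push_cast
      rw [map_pow]
    rw [h1]
    exact pow_le_one₀ (hpos v').le (hlt v' hv').le

end

end H25ES
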