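import Mathlib
import Pool.Agent.H25.ES.Units
import Pool.Agent.H25.ES.Real
import Pool.Agent.H25.ES.Root

/-!
# The sequence `a_n` with `q a_n = q² + v^n - 1`
-/

set_option autoImplicit false
set_option linter.unusedSectionVars false

namespace H25ES

open NumberField

section
variable {K : Type*} [Field K] [NumberField K] [IsTotallyReal K]

/-- the real embedding of a place of a totally real field -/
noncomputable def rho (w : InfinitePlace K) : K →+* ℝ :=
  InfinitePlace.embedding_of_isReal (IsTotallyReal.isReal w)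

theorem abs_rho (w : InfinitePlace K) (x : K) : |rho w x| = w x := by
  have := InfinitePlace.norm_embedding_of_isReal (IsTotallyReal.isReal w) x
  rw [← this, Real.norm_eq_abs]
  rfl

theorem le_A (q : 𝓞 K) (v : InfinitePlace K) :
    v (q : K) + (v (q : K))⁻¹ ≤ ∑ w : InfinitePlace K, (w (q : K) + (w (q : K))⁻¹) :=
  Finset.single_le_sum (f := fun w : InfinitePlace K => w (q : K) + (w (q : K))⁻¹)
    (fun w _ => add_nonneg (apply_nonneg w _) (inv_nonneg.2 (apply_nonneg w _)))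
    (Finset.mem_univ v)

theorem bound_other (q a : 𝓞 K) (hq : q ≠ 0) (u : 𝓞 K) (v : InfinitePlace K)
    (hpos : 0 < rho v (u : K)) (hle : v (u : K) ≤ 1) (h : q * a = q ^ 2 + u - 1) :
    v (a : K) ≤ ∑ w : InfinitePlace K, (w (q : K) + (w (q : K))⁻¹) := by
  refine le_trans ?_ (le_A q v)
  have hq0 : (q : K) ≠ 0 := by simpa using hq
  have hvq : 0 < v (q : K) := InfinitePlace.pos_iff.2 hq0
  have h1 : (q : K) * a = (q : K) ^ 2 + u - 1 := by exact_mod_cast congrArg (fun t : 𝓞 K => (t : K)) h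
  have h2 : rho v (q : K) * rho v (a : K) = rho v (q : K) ^ 2 + (rho v (u : K) - 1) := by
    have := congrArg (rho v) h1
    simp only [map_mul, map_sub, map_add, map_pow, map_one] at this
    linarith
  have h3 : v (q : K) * v (a : K) ≤ v (q : K) ^ 2 + 1 := by
    rw [← abs_rho v (q : K), ← abs_rho v (a : K), ← abs_mul, h2]
    refine le_trans (abs_add_le _ _) ?_
    have h4 : |rho v (u : K)| ≤ 1 := by rw [abs_rho]; exact hle
    have h5 : |rho v (u : K) - 1| ≤ 1 := by
      rw [abs_le] at h4 ⊢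
      constructor <;> linarith [h4.1, h4.2]
    rw [abs_pow, sq_abs]
    linarith
  have h6 : v (q : K) * v (a : K) ≤ v (q : K) * (v (q : K) + (v (q : K))⁻¹) := by
    have : v (q : K) * (v (q : K) + (v (q : K))⁻¹) = v (q : K) ^ 2 + 1 := by
      field_simp
    rw [this]
    exact h3
  exact le_of_mul_le_mul_left h6 hvq

theorem c_sub (x y : 𝓞 K) : ((x - y : 𝓞 K) : K) = x - y := map_sub (algebraMap (𝓞 K) K) x y

theorem c_add (x y : 𝓞 K) : ((x + y : 𝓞 K) : K) = x + y := map_add (algebraMap (𝓞 K) K) x y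

theorem c_mul (x y : 𝓞 K) : ((x * y : 𝓞 K) : K) = x * y := map_mul (algebraMap (𝓞 K) K) x y

theorem c_pow (x : 𝓞 K) (n : ℕ) : ((x ^ n : 𝓞 K) : K) = (x : K) ^ n :=
  map_pow (algebraMap (𝓞 K) K) x n

theorem c_two : ((2 : 𝓞 K) : K) = 2 := map_ofNat (algebraMap (𝓞 K) K) 2

theorem c_four : ((4 : 𝓞 K) : K) = 4 := map_ofNat (algebraMap (𝓞 K) K) 4

theorem c_zero : ((0 : 𝓞 K) : K) = 0 := map_zero (algebraMap (𝓞 K) K)

theorem c_one : ((1 : 𝓞 K) : K) = 1 := map_one (algebraMap (𝓞 K) K)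

theorem int_of_sq (s : K) (d : 𝓞 K) (h : s ^ 2 = (d : K)) : ∃ S : 𝓞 K, (S : K) = s := by
  have h1 : IsIntegral ℤ (s ^ 2) := by rw [h]; exact d.isIntegral_coe
  exact ⟨⟨s, IsIntegral.of_pow (by norm_num : 0 < 2) h1⟩, rfl⟩

theorem place_add (v : InfinitePlace K) (x y : K) : v (x + y) ≤ v x + v y := by
  rw [← abs_rho, ← abs_rho, ← abs_rho, map_add]
  exact abs_add_le _ _

theorem place_sub (v : InfinitePlace K) (x y : K) : v (x - y) ≤ v x + v y := by
  rw [← abs_rho, ← abs_rho, ← abs_rho, map_sub]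
  exact abs_sub _ _

theorem place_four (v : InfinitePlace K) : v (4 : K) = 4 := by
  rw [← abs_rho, map_ofNat]
  norm_num

theorem place_two (v : InfinitePlace K) : v (2 : K) = 2 := by
  rw [← abs_rho, map_ofNat]
  norm_num

theorem abs_sub_same (x y : ℝ) (h : 0 ≤ x * y) : |x - y| = |(|x| - |y|)| := by
  rcases le_total 0 x with hx | hx
  · rcases le_total 0 y with hy | hy
    · rw [abs_of_nonneg hx, abs_of_nonneg hy]
    · rcases eq_or_lt_of_le hx with h0 | h0
      · rw [← h0, zero_sub, abs_neg, abs_zero, zero_sub, abs_neg, abs_abs]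
      · have : y = 0 := by nlinarith
        rw [this, abs_of_nonneg hx]
        simp
  · rcases le_total 0 y with hy | hy
    · rcases eq_or_lt_of_le hx with h0 | h0
      · rw [h0, zero_sub, abs_neg, abs_zero, zero_sub, abs_neg, abs_abs]
      · have : y = 0 := by nlinarith
        rw [this, abs_of_nonpos hx]
        simp
    · rw [abs_of_nonpos hx, abs_of_nonpos hy]
      rw [show -x - -y = -(x - y) by ring, abs_neg]

theorem single_nonsq (w : InfinitePlace K) (A : ℝ) (hA : 0 ≤ A) (a : 𝓞 K)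
    (ha : ∀ v : InfinitePlace K, v ≠ w → v (a : K) ≤ A) (h0 : 0 < w (a : K))
    (hbig : 2 / w (a : K) * (2 * A + 2) ^ (Fintype.card (InfinitePlace K)) < 1) :
    ¬ IsSquare ((a : K) ^ 2 + 4) := by
  rintro ⟨s0, hs0⟩
  obtain ⟨s, hs, hsg⟩ : ∃ s : K, s ^ 2 = (a : K) ^ 2 + 4 ∧ 0 ≤ rho w s * rho w (a : K) := by
    rcases le_total 0 (rho w s0 * rho w (a : K)) with h | h
    · exact ⟨s0, by rw [hs0]; ring, h⟩
    · refine ⟨-s0, by rw [hs0]; ring, ?_⟩
      rw [map_neg]
      linarith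
  obtain ⟨S, hS⟩ := int_of_sq s (a ^ 2 + 4) (by rw [hs, c_add, c_pow, c_four])
  have h1 : ((S - a : 𝓞 K) : K) = s - a := by rw [c_sub, hS]
  have hz : S - a = 0 := by
    refine small_zero w (S - a) (2 * A + 2) (by linarith) ?_ ?_
    · intro v hv
      rw [h1]
      have h2 : v s ^ 2 ≤ (A + 2) ^ 2 := by
        rw [← map_pow, hs]
        refine le_trans (place_add v _ _) ?_
        rw [place_four, map_pow]
        have := pow_le_pow_left₀ (apply_nonneg v _) (ha v hv) 2
        nlinarith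
      have h3 : v s ≤ A + 2 :=
        (pow_le_pow_iff_left₀ (apply_nonneg v _) (by linarith) (by norm_num)).1 h2
      linarith [ha v hv, place_sub v s (a : K)]
    · rw [h1]
      refine lt_of_le_of_lt ?_ hbig
      refine mul_le_mul_of_nonneg_right ?_ (by positivity)
      have h2 : w (s - a) = |w s - w (a : K)| := by
        rw [← abs_rho w (s - a), map_sub, ← abs_rho w s, ← abs_rho w (a : K)]
        exact abs_sub_same _ _ hsg
      rw [h2]
      refine near _ _ h0 (apply_nonneg w _) ?_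
      rw [← map_pow, hs, ← abs_rho w, map_add, map_pow, map_ofNat, ← abs_rho w (a : K), sq_abs]
      exact abs_of_nonneg (by positivity)
  rw [hz, c_zero] at h1
  have h2 : s = a := by linear_combination -h1
  rw [h2] at hs
  have : (4 : K) = 0 := by linear_combination -hs
  norm_num at this

theorem pair_nonsq (w : InfinitePlace K) (A : ℝ) (hA : 0 ≤ A) (a b t : 𝓞 K)
    (hne : ∃ v : InfinitePlace K, v ≠ w)
    (ha : ∀ v : InfinitePlace K, v ≠ w → v (a : K) ≤ A)
    (hb : ∀ v : InfinitePlace K, v ≠ w → v (b : K) ≤ A)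
    (ht : ∀ v : InfinitePlace K, v ≠ w → v (t : K) ≤ 1)
    (hab : 0 < rho w (a : K) * rho w (b : K)) (ht0 : 0 < rho w (t : K))
    (hbig : ∀ s : ℝ, 0 ≤ s → s ^ 2 = (w (a : K) ^ 2 + 4) * (w (b : K) ^ 2 + 4) →
      |s - w (a : K) * w (b : K) - 2 * w (t : K)|
        * (2 * A ^ 2 + 6) ^ (Fintype.card (InfinitePlace K)) < 1) :
    ¬ IsSquare (((a : K) ^ 2 + 4) * ((b : K) ^ 2 + 4)) := by
  rintro ⟨s0, hs0⟩
  obtain ⟨s, hs, hsg⟩ : ∃ s : K, s ^ 2 = ((a : K) ^ 2 + 4) * ((b : K) ^ 2 + 4)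
      ∧ 0 ≤ rho w s := by
    rcases le_total 0 (rho w s0) with h | h
    · exact ⟨s0, by rw [hs0]; ring, h⟩
    · refine ⟨-s0, by rw [hs0]; ring, ?_⟩
      rw [map_neg]
      linarith
  obtain ⟨S, hS⟩ := int_of_sq s ((a ^ 2 + 4) * (b ^ 2 + 4))
    (by rw [hs, c_mul, c_add, c_pow, c_four, c_add, c_pow, c_four])
  have h1 : ((S - a * b - 2 * t : 𝓞 K) : K) = s - a * b - 2 * t := by
    rw [c_sub, c_sub, hS, c_mul, c_mul, c_two]
  have hz : S - a * b - 2 * t = 0 := by
    refine small_zero w _ (2 * A ^ 2 + 6) (by nlinarith) ?_ ?_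
    · intro v hv
      rw [h1]
      have a2 := pow_le_pow_left₀ (apply_nonneg v _) (ha v hv) 2
      have b2 := pow_le_pow_left₀ (apply_nonneg v _) (hb v hv) 2
      have h2 : v s ^ 2 ≤ (A ^ 2 + 4) ^ 2 := by
        rw [← map_pow, hs, map_mul, sq (A ^ 2 + 4)]
        refine mul_le_mul ?_ ?_ (apply_nonneg v _) (by positivity)
        · refine le_trans (place_add v _ _) ?_
          rw [place_four, map_pow]
          linarith
        · refine le_trans (place_add v _ _) ?_
          rw [place_four, map_pow]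
          linarith
      have h3 : v s ≤ A ^ 2 + 4 :=
        (pow_le_pow_iff_left₀ (apply_nonneg v _) (by positivity) (by norm_num)).1 h2
      have h4 := place_sub v (s - a * b) (2 * t)
      have h5 := place_sub v s ((a : K) * b)
      rw [map_mul, place_two] at h4
      rw [map_mul] at h5
      have h6 : v (a : K) * v (b : K) ≤ A * A :=
        mul_le_mul (ha v hv) (hb v hv) (apply_nonneg v _) hA
      have h7 := ht v hv
      nlinarith
    · rw [h1]
      have h2 : w (s - a * b - 2 * t) = |w s - w (a : K) * w (b : K) - 2 * w (t : K)| := by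
        rw [← abs_rho w (s - a * b - 2 * t), ← abs_rho w s, ← abs_rho w (a : K),
          ← abs_rho w (b : K), ← abs_rho w (t : K), map_sub, map_sub, map_mul, map_mul, map_ofNat,
          ← abs_mul, abs_of_nonneg hsg, abs_of_pos hab, abs_of_pos ht0]
      rw [h2]
      refine hbig _ (apply_nonneg w _) ?_
      rw [← map_pow, hs, ← abs_rho w, map_mul, map_add, map_add, map_pow, map_pow, map_ofNat,
        ← abs_rho w (a : K), ← abs_rho w (b : K), sq_abs, sq_abs]
      exact abs_of_nonneg (by positivity)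
  rw [hz, c_zero] at h1
  have h2 : s = a * b + 2 * t := by linear_combination -h1
  rw [h2] at hs
  obtain ⟨v, hv⟩ := hne
  have h3 := congrArg (rho v) hs
  simp only [map_mul, map_add, map_pow, map_ofNat] at h3
  have h4 : |rho v (t : K)| ≤ 1 := by rw [abs_rho]; exact ht v hv
  generalize rho v (a : K) = x at *
  generalize rho v (b : K) = y at *
  generalize rho v (t : K) = z at *
  rw [abs_le] at h4
  have h5 : x * y * z + z ^ 2 = x ^ 2 + y ^ 2 + 4 := by linear_combination (1 / 4 : ℝ) * h3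
  have h6 : z ^ 2 ≤ 1 := by nlinarith
  have h7 : x * y * z ≤ (x ^ 2 + y ^ 2) / 2 := by
    have h8 : (x * y) * z ≤ |x * y| := by
      rcases le_total 0 (x * y) with h | h
      · rw [abs_of_nonneg h]; nlinarith
      · rw [abs_of_nonpos h]; nlinarith
    have h9 : |x * y| ≤ (x ^ 2 + y ^ 2) / 2 := by
      rw [abs_le]
      constructor <;> nlinarith [sq_nonneg (x + y), sq_nonneg (x - y)]
    linarith
  nlinarith [sq_nonneg x, sq_nonneg y]

/-- `|q| |a_n| = V^n + |q|² - 1` at the chosen place -/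
theorem val_w (w : InfinitePlace K) (q a u : 𝓞 K) (h : q * a = q ^ 2 + u - 1)
    (hu : 1 ≤ rho w (u : K)) :
    w (q : K) * w (a : K) = w (u : K) + (w (q : K) ^ 2 - 1) ∧
      0 ≤ rho w (q : K) * rho w (a : K) := by
  have h1 : (q : K) * a = (q : K) ^ 2 + u - 1 := by
    rw [← c_mul, h, c_sub, c_add, c_pow, c_one]
  have h2 := congrArg (rho w) h1
  simp only [map_mul, map_sub, map_add, map_pow, map_one] at h2
  have h3 : 0 ≤ rho w (q : K) ^ 2 + rho w (u : K) - 1 := by nlinarith [sq_nonneg (rho w (q : K))]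
  constructor
  · rw [← abs_rho w (q : K), ← abs_rho w (a : K), ← abs_rho w (u : K), ← abs_mul, h2,
      abs_of_nonneg h3, sq_abs, abs_of_pos (by linarith : 0 < rho w (u : K))]
    ring
  · rw [h2]; exact h3

theorem seq_exists (hK : 1 < Module.finrank ℚ K) (w : InfinitePlace K) (q : 𝓞 K) (hq : q ≠ 0)
    (T A : ℝ) (hA : A = ∑ w : InfinitePlace K, (w (q : K) + (w (q : K))⁻¹)) :
    ∃ v : (𝓞 K)ˣ, (∀ σ : K →+* ℝ, 0 < σ ((v : 𝓞 K) : K)) ∧ ∃ a : ℕ → 𝓞 K,
      (∀ n, q * a n = q ^ 2 + (v : 𝓞 K) ^ n - 1) ∧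
      (∀ n, ∀ v' : InfinitePlace K, v' ≠ w → v' (a n : K) ≤ A) ∧
      (∀ n, 1 ≤ n → T ≤ w (a n : K)) ∧
      (∀ n, 1 ≤ n → ¬ IsSquare ((a n : K) ^ 2 + 4)) ∧
      (∀ m n, m < n → n < 2 * m → ¬ IsSquare (((a n : K) ^ 2 + 4) * ((a m : K) ^ 2 + 4))) := by
  have hq0 : (q : K) ≠ 0 := by simpa using hq
  obtain ⟨P, hP⟩ : ∃ P, P = w (q : K) := ⟨_, rfl⟩
  have hP0 : 0 < P := by rw [hP]; exact InfinitePlace.pos_iff.2 hq0
  have hA0 : 0 ≤ A := by
    rw [hA]
    exact Finset.sum_nonneg fun v _ => add_nonneg (apply_nonneg v _) (inv_nonneg.2 (apply_nonneg v _))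
  obtain ⟨c, hc⟩ : ∃ c, c = Fintype.card (InfinitePlace K) := ⟨_, rfl⟩
  have g1 : 0 ≤ (2 * A + 2) ^ c := by positivity
  have g2 : 0 ≤ (20 + 132 * P ^ 2) * (2 * A ^ 2 + 6) ^ c := by positivity
  have g3 : 0 ≤ 2 * P * |T| := by positivity
  have g4 : 0 ≤ P ^ 2 := by positivity
  have g5 : 0 ≤ 2 * P * (2 * (2 * A + 2) ^ c + 1) := by positivity
  obtain ⟨v, hv1, hv2, hv3, hv4⟩ := exists_big hK w q hq
    (2 + P ^ 2 + 2 * P * |T| + 2 * P * (2 * (2 * A + 2) ^ c + 1)
      + (20 + 132 * P ^ 2) * (2 * A ^ 2 + 6) ^ c + 1)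
  refine ⟨v, hv2, ?_⟩
  obtain ⟨V, hV⟩ : ∃ V, V = w ((v : 𝓞 K) : K) := ⟨_, rfl⟩
  rw [← hV] at hv3
  have hrv : rho w ((v : 𝓞 K) : K) = V := by
    rw [hV, ← abs_rho w, abs_of_pos (hv2 _)]
  have hdvd : ∀ n : ℕ, ∃ a : 𝓞 K, q * a = q ^ 2 + (v : 𝓞 K) ^ n - 1 := fun n => by
    have h1 : q ∣ (v : 𝓞 K) ^ n - 1 := by
      refine dvd_trans hv1 ?_
      have := sub_dvd_pow_sub_pow (v : 𝓞 K) 1 n
      rwa [one_pow] at this
    obtain ⟨t, ht⟩ := h1
    exact ⟨q + t, by linear_combination -ht⟩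
  choose a ha using hdvd
  have hV2 : 2 ≤ V := by linarith
  have hV1 : 1 ≤ V := by linarith
  have hpow : ∀ n : ℕ, rho w (((v : 𝓞 K) ^ n : 𝓞 K) : K) = V ^ n := fun n => by
    rw [c_pow, map_pow, hrv]
  have hpow' : ∀ n : ℕ, w (((v : 𝓞 K) ^ n : 𝓞 K) : K) = V ^ n := fun n => by
    rw [c_pow, map_pow, ← hV]
  have hone : ∀ n : ℕ, 1 ≤ rho w (((v : 𝓞 K) ^ n : 𝓞 K) : K) := fun n => by
    rw [hpow]; exact one_le_pow₀ hV1
  have hval : ∀ n, P * w (a n : K) = V ^ n + (P ^ 2 - 1) := fun n => by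
    have := (val_w w q (a n) _ (ha n) (hone n)).1
    rw [hpow', ← hP] at this
    exact this
  have hbd : ∀ n, ∀ v' : InfinitePlace K, v' ≠ w → v' (a n : K) ≤ A := fun n v' hv' => by
    rw [hA]
    refine bound_other q (a n) hq _ v' ?_ ?_ (ha n)
    · rw [c_pow, map_pow]
      exact pow_pos (hv2 _) n
    · rw [c_pow, map_pow]
      exact pow_le_one₀ (apply_nonneg v' _) (hv4 v' hv')
  have hlow : ∀ n, 1 ≤ n → V ≤ 2 * (P * w (a n : K)) := fun n hn => by
    rw [hval]
    have : V ^ 1 ≤ V ^ n := pow_le_pow_right₀ hV1 hn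
    rw [pow_one] at this
    linarith
  refine ⟨a, ha, hbd, ?_, ?_, ?_⟩
  · intro n hn
    have h1 := hlow n hn
    have h2 : 2 * P * |T| ≤ 2 * (P * w (a n : K)) := by linarith
    have h3 : |T| ≤ w (a n : K) := by
      have h4 : (2 * P) * |T| ≤ (2 * P) * w (a n : K) := by linarith
      exact le_of_mul_le_mul_left h4 (by linarith)
    exact le_trans (le_abs_self T) h3
  · intro n hn
    have h1 := hlow n hn
    have h3 : 2 * (2 * A + 2) ^ c + 1 ≤ w (a n : K) := by
      have h4 : (2 * P) * (2 * (2 * A + 2) ^ c + 1) ≤ (2 * P) * w (a n : K) := by linarith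
      exact le_of_mul_le_mul_left h4 (by linarith)
    have h0 : 0 < w (a n : K) := by linarith
    refine single_nonsq w A hA0 (a n) (hbd n) h0 ?_
    rw [← hc, div_mul_eq_mul_div, div_lt_one h0]
    linarith
  · intro m n hmn hnm
    obtain ⟨r, rfl⟩ := Nat.exists_eq_add_of_lt hmn
    have hm1 : 1 ≤ m := by omega
    have hr : (v : 𝓞 K) ^ (r + 1) = (v : 𝓞 K) ^ (r + 1) := rfl
    have hqa := (val_w w q (a (m + r + 1)) _ (ha _) (hone _)).2
    have hqb := (val_w w q (a m) _ (ha m) (hone m)).2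
    have hqr : rho w (q : K) ≠ 0 := by rw [Ne, map_eq_zero]; exact hq0
    have hwa : 0 < w (a (m + r + 1) : K) := by
      have := hlow (m + r + 1) (by omega)
      have h2 : 0 < P * w (a (m + r + 1) : K) := by linarith
      exact (mul_pos_iff_of_pos_left hP0).1 h2
    have hwb : 0 < w (a m : K) := by
      have := hlow m hm1
      have h2 : 0 < P * w (a m : K) := by linarith
      exact (mul_pos_iff_of_pos_left hP0).1 h2
    have hra : rho w (a (m + r + 1) : K) ≠ 0 := by
      intro h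
      rw [← abs_rho, h, abs_zero] at hwa
      exact lt_irrefl _ hwa
    have hrb : rho w (a m : K) ≠ 0 := by
      intro h
      rw [← abs_rho, h, abs_zero] at hwb
      exact lt_irrefl _ hwb
    refine pair_nonsq w A hA0 (a (m + r + 1)) (a m) ((v : 𝓞 K) ^ (r + 1)) (exists_other hK w)
      (hbd _) (hbd _) ?_ ?_ ?_ ?_
    · intro v' hv'
      rw [c_pow, map_pow]
      exact pow_le_one₀ (apply_nonneg v' _) (hv4 v' hv')
    · have h1 : 0 ≤ (rho w (q : K)) ^ 2 * (rho w (a (m + r + 1) : K) * rho w (a m : K)) := by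
        have := mul_nonneg hqa hqb
        nlinarith
      have h2 : 0 < (rho w (q : K)) ^ 2 := by positivity
      have h3 : 0 ≤ rho w (a (m + r + 1) : K) * rho w (a m : K) := by
        exact nonneg_of_mul_nonneg_right h1 h2
      exact lt_of_le_of_ne h3 (mul_ne_zero hra hrb).symm
    · rw [hpow]; positivity
    · intro s hs hs2
      have hest := est P V (V ^ (r + 1)) (V ^ m) (w (a (m + r + 1) : K)) (w (a m : K)) s hP0 hV2
        (by linarith) (by
          calc V = V ^ 1 := (pow_one V).symm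
            _ ≤ V ^ (r + 1) := pow_le_pow_right₀ hV1 (by omega))
        (by
          calc V * V ^ (r + 1) = V ^ (r + 2) := by rw [← pow_succ']
            _ ≤ V ^ m := pow_le_pow_right₀ hV1 (by omega))
        (by rw [hval, ← pow_add]; rfl) (hval m) hs hs2
      rw [hpow', ← hc]
      have hV0 : 0 < V := by linarith
      calc |s - w (a (m + r + 1) : K) * w (a m : K) - 2 * V ^ (r + 1)| * (2 * A ^ 2 + 6) ^ c
          ≤ (20 + 132 * P ^ 2) / V * (2 * A ^ 2 + 6) ^ c :=
            mul_le_mul_of_nonneg_right hest (by positivity)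
        _ < 1 := by
            rw [div_mul_eq_mul_div, div_lt_one hV0]
            linarith

end

end H25ES
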