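import Mathlib
import Pool.Agent.H25.ES.Seq

/-!
# Quadratic extensions generated by a square root of `a² + 4`
-/

set_option autoImplicit false
set_option linter.unusedSectionVars false

namespace H25ES

open NumberField

section
variable {L F : Type*} [Field L] [NumberField L] [IsTotallyReal L] [Field F] [NumberField F]
  [Algebra L F] (hF : Module.finrank L F = 2) (a : 𝓞 L) (r : F)
  (hr : r ^ 2 = algebraMap L F ((a : L) ^ 2 + 4)) (hsq : ¬ IsSquare ((a : L) ^ 2 + 4))

include hF hr hsq in
theorem decomp (y : F) : ∃ s t : L, y = algebraMap L F s + algebraMap L F t * r := by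
  have hli : LinearIndependent L ![(1 : F), r] := by
    rw [LinearIndependent.pair_iff]
    intro s t h
    rw [Algebra.smul_def, Algebra.smul_def, mul_one] at h
    have ht : t = 0 := by
      by_contra ht
      apply hsq
      refine ⟨- s / t, ?_⟩
      have ht' : algebraMap L F t ≠ 0 := by
        intro h0
        exact ht ((map_eq_zero _).1 h0)
      have hr' : r = algebraMap L F (- s / t) := by
        rw [map_div₀, map_neg, eq_div_iff ht']
        linear_combination h
      apply (algebraMap L F).injective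
      rw [← hr, hr', map_mul, sq]
    refine ⟨?_, ht⟩
    rw [ht, map_zero, zero_mul, add_zero] at h
    exact (map_eq_zero _).1 h
  have htop : Submodule.span L (Set.range ![(1 : F), r]) = ⊤ := by
    apply Submodule.eq_top_of_finrank_eq
    rw [finrank_span_eq_card hli, hF]
    simp
  have hz : y ∈ Submodule.span L (Set.range ![(1 : F), r]) := by
    rw [htop]; trivial
  rw [Matrix.range_cons, Matrix.range_cons, Matrix.range_empty, Set.union_empty] at hz
  have hz' : y ∈ Submodule.span L ({(1 : F), r} : Set F) := hz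
  rw [Submodule.mem_span_pair] at hz'
  obtain ⟨s, t, hac⟩ := hz'
  refine ⟨s, t, ?_⟩
  rw [← hac, Algebra.smul_def, Algebra.smul_def, mul_one]

include hF hr hsq in
theorem totally_real : IsTotallyReal F := by
  constructor
  intro v
  obtain ⟨τ, hτ⟩ : ∃ τ, τ = v.embedding := ⟨_, rfl⟩
  rw [InfinitePlace.isReal_iff, ← hτ, ComplexEmbedding.isReal_iff]
  have hL : ∀ l : L, (starRingEnd ℂ) (τ (algebraMap L F l)) = τ (algebraMap L F l) := by
    intro l
    have h1 := IsTotallyReal.complexEmbedding_isReal (K := L) (τ.comp (algebraMap L F))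
    rw [ComplexEmbedding.isReal_iff] at h1
    have h2 := congrArg (fun f : L →+* ℂ => f l) h1
    exact h2
  have hrr : (starRingEnd ℂ) (τ r) = τ r := by
    obtain ⟨x, hx⟩ := Complex.conj_eq_iff_real.1 (hL (a : L))
    have h1 : τ r ^ 2 = ((x ^ 2 + 4 : ℝ) : ℂ) := by
      rw [← map_pow, hr, map_add, map_add, map_pow, map_pow, hx, map_ofNat, map_ofNat]
      push_cast
      rfl
    have h2 : (τ r - (Real.sqrt (x ^ 2 + 4) : ℂ)) * (τ r + (Real.sqrt (x ^ 2 + 4) : ℂ)) = 0 := by
      have h3 : ((Real.sqrt (x ^ 2 + 4) : ℝ) : ℂ) ^ 2 = ((x ^ 2 + 4 : ℝ) : ℂ) := by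
        rw [← Complex.ofReal_pow, Real.sq_sqrt (by positivity)]
      linear_combination h1 - h3
    rcases mul_eq_zero.1 h2 with h | h
    · have : τ r = (Real.sqrt (x ^ 2 + 4) : ℂ) := by linear_combination h
      rw [this, Complex.conj_ofReal]
    · have : τ r = - (Real.sqrt (x ^ 2 + 4) : ℂ) := by linear_combination h
      rw [this, map_neg, Complex.conj_ofReal]
  ext y
  obtain ⟨s, t, rfl⟩ := decomp hF a r hr hsq y
  rw [ComplexEmbedding.conjugate_coe_eq, map_add, map_mul, map_add, map_mul, hL, hL, hrr]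

include hF hr hsq in
theorem exists_conj : ∃ c : F ≃ₐ[L] F, c r = - r := by
  have hQ : Algebra.IsQuadraticExtension L F := ⟨hF⟩
  have hG : IsGalois L F := inferInstance
  have hcard := IsGalois.card_aut_eq_finrank L F
  rw [hF] at hcard
  have hfin : Finite (F ≃ₐ[L] F) := inferInstance
  have hnt : Nontrivial (F ≃ₐ[L] F) := by
    rw [← Finite.one_lt_card_iff_nontrivial, hcard]
    norm_num
  obtain ⟨c, hc⟩ := exists_ne (1 : F ≃ₐ[L] F)
  refine ⟨c, ?_⟩
  have h1 : (c r - r) * (c r + r) = 0 := by
    have h2 : c r ^ 2 = r ^ 2 := by rw [← map_pow, hr, AlgEquiv.commutes]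
    linear_combination h2
  rcases mul_eq_zero.1 h1 with h | h
  · exfalso
    apply hc
    have hcr : c r = r := by linear_combination h
    ext y
    obtain ⟨s, t, rfl⟩ := decomp hF a r hr hsq y
    rw [map_add, map_mul, AlgEquiv.commutes, AlgEquiv.commutes, hcr, AlgEquiv.one_apply]
  · linear_combination h

include hF hr hsq in
theorem conj_conj (c : F ≃ₐ[L] F) (hc : c r = - r) (y : F) : c (c y) = y := by
  obtain ⟨s, t, rfl⟩ := decomp hF a r hr hsq y
  simp only [map_add, map_mul, AlgEquiv.commutes, hc, map_neg, neg_neg]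

include hF hr hsq in
theorem norm_in (c : F ≃ₐ[L] F) (hc : c r = - r) (y : F) : ∃ N : L, algebraMap L F N = y * c y := by
  obtain ⟨s, t, rfl⟩ := decomp hF a r hr hsq y
  refine ⟨s ^ 2 - t ^ 2 * ((a : L) ^ 2 + 4), ?_⟩
  rw [map_add, map_mul, AlgEquiv.commutes, AlgEquiv.commutes, hc, map_sub, map_mul, ← hr, map_pow,
    map_pow]
  ring

end

end H25ES
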