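import Mathlib
import Pool.Agent.H25.ES.Quad

/-!
# The polynomial `X Φ² + 4 η` has no root in the quadratic extension
-/

set_option autoImplicit false
set_option linter.unusedSectionVars false

namespace H25ES

open NumberField Polynomial

section
variable {F : Type*} [Field F] [NumberField F]

theorem root_integral (g : ℕ) (e : ℕ → F) (he : ∀ k ∈ Finset.Icc 1 g, IsIntegral ℤ (e k))
    (θ x : F) (hθ : IsIntegral ℤ θ)
    (hx : x * (∏ k ∈ Finset.Icc 1 g, (x - e k)) ^ 2 + θ = 0) : IsIntegral ℤ x := by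
  classical
  have h1 : ∃ P : (integralClosure ℤ F)[X], P.Monic ∧ P.natDegree = 2 * g ∧
      P.map (algebraMap (integralClosure ℤ F) F) = (∏ k ∈ Finset.Icc 1 g, (X - C (e k))) ^ 2 := by
    let e' : ℕ → integralClosure ℤ F := fun k =>
      if hk : IsIntegral ℤ (e k) then ⟨e k, hk⟩ else 0
    refine ⟨(∏ k ∈ Finset.Icc 1 g, (X - C (e' k))) ^ 2, ?_, ?_, ?_⟩
    · exact (monic_prod_of_monic _ _ fun k _ => monic_X_sub_C _).pow 2
    · rw [(monic_prod_of_monic _ _ fun k _ => monic_X_sub_C _).natDegree_pow,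
        natDegree_prod_of_monic _ _ fun k _ => monic_X_sub_C _,
        Finset.sum_congr rfl fun k _ => natDegree_X_sub_C _]
      simp
    · rw [Polynomial.map_pow, Polynomial.map_prod]
      congr 1
      refine Finset.prod_congr rfl fun k hk => ?_
      rw [Polynomial.map_sub, map_X, map_C]
      congr 2
      simp only [e', dif_pos (he k hk)]
      rfl
  obtain ⟨P, hP, hdeg, hmap⟩ := h1
  have h2 : IsIntegral (integralClosure ℤ F) x := by
    refine ⟨X * P + C ⟨θ, hθ⟩, ?_, ?_⟩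
    · refine (monic_X.mul hP).add_of_left ?_
      have hne : (X * P).Monic := monic_X.mul hP
      have hd : (X * P).natDegree = 1 + 2 * g := by
        rw [monic_X.natDegree_mul hP, natDegree_X, hdeg]
      refine lt_of_le_of_lt degree_C_le ?_
      rw [degree_eq_natDegree hne.ne_zero, hd]
      exact_mod_cast (by omega : 0 < 1 + 2 * g)
    · rw [eval₂_add, eval₂_mul, eval₂_X, eval₂_C, ← eval_map, hmap, eval_pow, eval_prod]
      simp only [eval_sub, eval_X, eval_C]
      exact hx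
  exact isIntegral_trans x h2

theorem tk (v : InfinitePlace F) [IsTotallyReal F] (x e : F) :
    v x - v e ≤ v (x - e) ∧ v (x - e) ≤ v x + v e ∧ v e - v (x - e) ≤ v x := by
  have h1 := place_sub v x e
  have h2 := place_add v (x - e) e
  have h3 := place_sub v x (x - e)
  rw [sub_add_cancel] at h2
  rw [sub_sub_cancel] at h3
  exact ⟨by linarith, h1, by linarith⟩

theorem val_root (v : InfinitePlace F) [IsTotallyReal F] (g : ℕ) (e : ℕ → F) (x η : F)
    (hx : x * (∏ k ∈ Finset.Icc 1 g, (x - e k)) ^ 2 + 4 * η = 0) :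
    v x * ∏ k ∈ Finset.Icc 1 g, (v (x - e k)) ^ 2 = 4 * v η := by
  have h1 : x * (∏ k ∈ Finset.Icc 1 g, (x - e k)) ^ 2 = - (4 * η) := by linear_combination hx
  have h2 := congrArg v h1
  rw [map_mul, map_pow, map_prod, ← Finset.prod_pow] at h2
  rw [h2, ← abs_rho, map_neg, abs_neg, abs_rho, map_mul, place_four]

end

section
variable {L : Type*} [Field L] [NumberField L] [IsTotallyReal L]

theorem no_root_exists (w : InfinitePlace L) (g : ℕ) (hg : 1 ≤ g) (ε : ℕ → 𝓞 L)
    (hε : ∀ k ∈ Finset.Icc 1 g, ε k ≠ 0) (A : ℝ) (hA : 0 ≤ A) :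
    ∃ T : ℝ, ∀ a : 𝓞 L, (∀ v : InfinitePlace L, v ≠ w → v (a : L) ≤ A) → T ≤ w (a : L) →
      ¬ IsSquare ((a : L) ^ 2 + 4) →
      ∀ (F : Type) [Field F] [NumberField F] [Algebra L F], Module.finrank L F = 2 →
        ∀ r : F, r ^ 2 = algebraMap L F ((a : L) ^ 2 + 4) → ∀ x : F,
          x * (∏ k ∈ Finset.Icc 1 g, (x - algebraMap L F (ε k : L))) ^ 2
            + 4 * ((algebraMap L F (a : L) + r) / 2) ≠ 0 := by
  classical
  obtain ⟨E, hE⟩ : ∃ E : ℝ, E = ∑ v : InfinitePlace L, ∑ k ∈ Finset.Icc 1 g, v (ε k : L) :=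
    ⟨_, rfl⟩
  have hE1 : ∀ v : InfinitePlace L, ∀ k ∈ Finset.Icc 1 g, v (ε k : L) ≤ E := by
    intro v k hk
    rw [hE]
    have h1 : v (ε k : L) ≤ ∑ k ∈ Finset.Icc 1 g, v (ε k : L) :=
      Finset.single_le_sum (f := fun k => v (ε k : L)) (fun k _ => apply_nonneg v _) hk
    have h2 : ∑ k ∈ Finset.Icc 1 g, v (ε k : L)
        ≤ ∑ v : InfinitePlace L, ∑ k ∈ Finset.Icc 1 g, v (ε k : L) :=
      Finset.single_le_sum (f := fun v : InfinitePlace L => ∑ k ∈ Finset.Icc 1 g, v (ε k : L))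
        (fun v _ => Finset.sum_nonneg fun k _ => apply_nonneg v _) (Finset.mem_univ v)
    exact le_trans h1 h2
  have hE0 : 0 ≤ E := by
    rw [hE]
    exact Finset.sum_nonneg fun v _ => Finset.sum_nonneg fun k _ => apply_nonneg v _
  obtain ⟨S, hS⟩ : ∃ S : ℝ, S = 1 + ∑ k ∈ Finset.Icc 1 g, (w (ε k : L))⁻¹ := ⟨_, rfl⟩
  have hS0 : 0 < S := by
    rw [hS]
    have : 0 ≤ ∑ k ∈ Finset.Icc 1 g, (w (ε k : L))⁻¹ :=
      Finset.sum_nonneg fun k _ => inv_nonneg.2 (apply_nonneg w _)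
    linarith
  have hS1 : ∀ k ∈ Finset.Icc 1 g, 1 / S ≤ w (ε k : L) := by
    intro k hk
    have h0 : (ε k : L) ≠ 0 := by simpa using hε k hk
    have h1 : 0 < w (ε k : L) := InfinitePlace.pos_iff.2 h0
    have h2 : (w (ε k : L))⁻¹ ≤ S := by
      have := Finset.single_le_sum (f := fun k => (w (ε k : L))⁻¹)
        (fun k _ => inv_nonneg.2 (apply_nonneg w _)) hk
      linarith
    rw [div_le_iff₀ hS0]
    calc (1 : ℝ) = w (ε k : L) * (w (ε k : L))⁻¹ := by field_simp
      _ ≤ w (ε k : L) * S := by gcongr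
  obtain ⟨ρ, R, hρ, hR, hbd⟩ := bounds_real g E A hE0 hA
  obtain ⟨n, hn⟩ : ∃ n, n = Fintype.card (InfinitePlace L) := ⟨_, rfl⟩
  obtain ⟨B, hB⟩ : ∃ B : ℝ, B = 16 / ρ ^ 2 + 1 := ⟨_, rfl⟩
  have hB1 : 1 ≤ B := by
    rw [hB]
    have : 0 ≤ 16 / ρ ^ 2 := by positivity
    linarith
  have hR2 : 1 ≤ R ^ 2 := one_le_pow₀ hR
  obtain ⟨H0, hH0⟩ := noroot_real g hg E (1 / S / 2) (1 / (R ^ 2) ^ n) (16 * (B ^ n) ^ 2) hE0
    (by positivity) (by positivity)
  refine ⟨2 * H0, ?_⟩
  intro a ha haw hsq F _ _ _ hF r hr x hx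
  have := totally_real hF a r hr hsq
  obtain ⟨c, hc⟩ := exists_conj hF a r hr hsq
  obtain ⟨al, hal⟩ : ∃ al, al = algebraMap L F (a : L) := ⟨_, rfl⟩
  rw [← hal] at hx
  have hr2 : r ^ 2 = al ^ 2 + 4 := by
    rw [hr, hal, map_add, map_pow, map_ofNat]
  obtain ⟨η, hη⟩ : ∃ η, η = (al + r) / 2 := ⟨_, rfl⟩
  obtain ⟨η', hη'⟩ : ∃ η', η' = (al - r) / 2 := ⟨_, rfl⟩
  have hηη : η * η' = -1 := by
    rw [hη, hη']
    linear_combination (-1 / 4 : F) * hr2
  have hsum : η + η' = al := by rw [hη, hη']; ring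
  have hcη : c η = η' := by
    rw [hη, hη', map_div₀, map_add, hc, hal, AlgEquiv.commutes, map_ofNat]
    ring
  rw [← hη] at hx
  have hx' : c x * (∏ k ∈ Finset.Icc 1 g, (c x - algebraMap L F (ε k : L))) ^ 2 + 4 * η' = 0 := by
    have h1 := congrArg c hx
    rw [map_add, map_mul, map_mul, map_pow, map_prod, hcη, map_zero, map_ofNat] at h1
    rw [← h1]
    congr 3
    refine Finset.prod_congr rfl fun k _ => ?_
    rw [map_sub, AlgEquiv.commutes]
  have hali : IsIntegral ℤ al := by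
    rw [hal]
    exact a.isIntegral_coe.map (algebraMap L F).toIntAlgHom
  have hηi : ∀ z : F, z ^ 2 = al * z + 1 → IsIntegral ℤ z := by
    intro z hz
    have hz2 : IsIntegral (integralClosure ℤ F) z := by
      refine ⟨X ^ 2 - (C ⟨al, hali⟩ * X + C 1), ?_, ?_⟩
      · refine monic_X_pow_sub ?_
        refine lt_of_le_of_lt degree_linear_le ?_
        norm_num
      · rw [eval₂_sub, eval₂_add, eval₂_mul, eval₂_pow, eval₂_X, eval₂_C, eval₂_C, map_one]
        change z ^ 2 - (al * z + 1) = 0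
        rw [hz, sub_self]
    exact isIntegral_trans z hz2
  have hηI : IsIntegral ℤ η := hηi η (by rw [← hsum]; linear_combination -hηη)
  have hηI' : IsIntegral ℤ η' := hηi η' (by rw [← hsum]; linear_combination -hηη)
  have h4 : IsIntegral ℤ (4 : F) := by
    have := isIntegral_algebraMap (R := ℤ) (A := F) (x := 4)
    simpa using this
  have hεI : ∀ k ∈ Finset.Icc 1 g, IsIntegral ℤ (algebraMap L F (ε k : L)) := fun k _ =>
    (ε k).isIntegral_coe.map (algebraMap L F).toIntAlgHom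
  have hxI := root_integral g _ hεI _ x (h4.mul hηI) hx
  have hxI' := root_integral g _ hεI _ (c x) (h4.mul hηI') hx'
  have hinj : Function.Injective (algebraMap L F) := (algebraMap L F).injective
  have hdesc : ∀ z : L, IsIntegral ℤ (algebraMap L F z) → ∃ Z : 𝓞 L, (Z : L) = z := by
    intro z hz
    exact ⟨⟨z, (isIntegral_algebraMap_iff hinj).1 hz⟩, rfl⟩
  obtain ⟨N0, hN0⟩ := norm_in hF a r hr hsq c hc x
  obtain ⟨N, hN⟩ := hdesc N0 (by rw [hN0]; exact hxI.mul hxI')
  obtain ⟨M0, hM0⟩ := norm_in hF a r hr hsq c hc (∏ k ∈ Finset.Icc 1 g, (x - algebraMap L F (ε k : L)))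
  have hM0' : algebraMap L F M0 = (∏ k ∈ Finset.Icc 1 g, (x - algebraMap L F (ε k : L)))
      * ∏ k ∈ Finset.Icc 1 g, (c x - algebraMap L F (ε k : L)) := by
    rw [hM0, map_prod]
    congr 1
    refine Finset.prod_congr rfl fun k _ => ?_
    rw [map_sub, AlgEquiv.commutes]
  obtain ⟨M, hM⟩ := hdesc M0 (by
    rw [hM0']
    exact (IsIntegral.prod _ fun k hk => hxI.sub (hεI k hk)).mul
      (IsIntegral.prod _ fun k hk => hxI'.sub (hεI k hk)))
  have hNM : N0 * M0 ^ 2 = -16 := by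
    apply hinj
    rw [map_mul, map_pow, hN0, hM0', map_neg, map_ofNat]
    linear_combination (c x * (∏ k ∈ Finset.Icc 1 g, (c x - algebraMap L F (ε k : L))) ^ 2) * hx
      - 4 * η * hx' + 16 * hηη
  have hN0n : N0 ≠ 0 := by
    rintro rfl
    rw [zero_mul] at hNM
    norm_num at hNM
  have hM0n : M0 ≠ 0 := by
    rintro rfl
    norm_num at hNM
  have hNn : N ≠ 0 := by
    rintro rfl
    exact hN0n (by rw [← hN, c_zero])
  have hMn : M ≠ 0 := by
    rintro rfl
    exact hM0n (by rw [← hM, c_zero])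
  have hvNM : ∀ v : InfinitePlace L, v N0 * v M0 ^ 2 = 16 := by
    intro v
    rw [← map_pow, ← map_mul, hNM, ← abs_rho, map_neg, map_ofNat, abs_neg]
    norm_num
  -- places above
  have habove : ∀ v : InfinitePlace L, ∃ v' : InfinitePlace F, ∀ l : L, v' (algebraMap L F l) = v l := by
    intro v
    obtain ⟨v', hv'⟩ := InfinitePlace.comap_surjective (k := L) (K := F) v
    exact ⟨v', fun l => by rw [← hv']; rfl⟩
  have hηv : ∀ v' : InfinitePlace F, v' η * v' η' = 1 := by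
    intro v'
    rw [← map_mul, hηη, ← abs_rho, map_neg, map_one, abs_neg, abs_one]
  have htk : ∀ v' : InfinitePlace F, ∀ v : InfinitePlace L, (∀ l : L, v' (algebraMap L F l) = v l) →
      ∀ y : F, ∀ k ∈ Finset.Icc 1 g, 0 ≤ v' (y - algebraMap L F (ε k : L)) ∧
        v' y - E ≤ v' (y - algebraMap L F (ε k : L)) ∧
        v' (y - algebraMap L F (ε k : L)) ≤ v' y + E := by
    intro v' v hv y k hk
    obtain ⟨h1, h2, -⟩ := tk v' y (algebraMap L F (ε k : L))
    rw [hv] at h1 h2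
    have h3 := hE1 v k hk
    exact ⟨apply_nonneg v' _, by linarith, by linarith⟩
  have hother : ∀ v : InfinitePlace L, v ≠ w → ρ ^ 2 ≤ v N0 ∧ v N0 ≤ R ^ 2 := by
    intro v hvw
    obtain ⟨v', hv'⟩ := habove v
    have h1 : v' al ≤ A := by rw [hal, hv']; exact ha v hvw
    have h2 : v' r ≤ A + 2 := by
      have h3 : v' r ^ 2 ≤ (A + 2) ^ 2 := by
        rw [← map_pow, hr2]
        refine le_trans (place_add v' _ _) ?_
        rw [place_four, map_pow]
        have := pow_le_pow_left₀ (apply_nonneg v' _) h1 2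
        nlinarith
      exact (pow_le_pow_iff_left₀ (apply_nonneg v' _) (by linarith) (by norm_num)).1 h3
    have h3 : v' η ≤ A + 1 := by
      rw [hη, map_div₀, place_two]
      have := place_add v' al r
      linarith
    have h4 : v' η' ≤ A + 1 := by
      rw [hη', map_div₀, place_two]
      have := place_sub v' al r
      linarith
    have hA1 : 0 < A + 1 := by linarith
    have h0 := apply_nonneg v' η
    have h0' := apply_nonneg v' η'
    have h5 : 1 / (A + 1) ≤ v' η := by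
      rw [div_le_iff₀ hA1]
      calc (1 : ℝ) = v' η * v' η' := (hηv v').symm
        _ ≤ v' η * (A + 1) := by gcongr
    have h6 : 1 / (A + 1) ≤ v' η' := by
      rw [div_le_iff₀ hA1]
      calc (1 : ℝ) = v' η * v' η' := (hηv v').symm
        _ = v' η' * v' η := mul_comm _ _
        _ ≤ v' η' * (A + 1) := by gcongr
    obtain ⟨r1, r2⟩ := hbd _ h5 h3 _ (apply_nonneg v' x) _ (htk v' v hv' x)
      (val_root v' g _ x η hx)
    obtain ⟨s1, s2⟩ := hbd _ h6 h4 _ (apply_nonneg v' (c x)) _ (htk v' v hv' (c x))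
      (val_root v' g _ (c x) η' hx')
    rw [← hv', hN0, map_mul, sq, sq]
    exact ⟨mul_le_mul r1 s1 hρ.le (le_trans hρ.le r1),
      mul_le_mul r2 s2 (apply_nonneg v' _) (by linarith)⟩
  have hNlow : 1 / (R ^ 2) ^ n ≤ w N0 := by
    by_contra hlt
    rw [not_le, lt_div_iff₀ (by positivity)] at hlt
    exact hNn (small_zero w N (R ^ 2) hR2 (fun v hv => by rw [hN]; exact (hother v hv).2)
      (by rw [hN, ← hn]; exact hlt))
  have hMlow : 1 ≤ w M0 * B ^ n := by
    by_contra hlt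
    rw [not_le] at hlt
    refine hMn (small_zero w M B hB1 (fun v hv => ?_) (by rw [hM, ← hn]; exact hlt))
    rw [hM]
    have h1 := (hother v hv).1
    have h2 := hvNM v
    have h3 : v M0 ^ 2 ≤ B ^ 2 := by
      have h4 : v M0 ^ 2 ≤ 16 / ρ ^ 2 := by
        rw [le_div_iff₀ (by positivity), mul_comm, ← h2]
        gcongr
      nlinarith
    exact (pow_le_pow_iff_left₀ (apply_nonneg v _) (by linarith) (by norm_num)).1 h3
  have hNup : w N0 ≤ 16 * (B ^ n) ^ 2 := by
    rw [← hvNM w]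
    have h1 : 1 ≤ (w M0 * B ^ n) ^ 2 := one_le_pow₀ hMlow
    calc w N0 = w N0 * 1 := (mul_one _).symm
      _ ≤ w N0 * (w M0 * B ^ n) ^ 2 := by gcongr
      _ = w N0 * w M0 ^ 2 * (B ^ n) ^ 2 := by ring
  obtain ⟨v', hv'⟩ := habove w
  have key : ∀ y y' θ θ' : F,
      y * (∏ k ∈ Finset.Icc 1 g, (y - algebraMap L F (ε k : L))) ^ 2 + 4 * θ = 0 →
      y' * (∏ k ∈ Finset.Icc 1 g, (y' - algebraMap L F (ε k : L))) ^ 2 + 4 * θ' = 0 →
      v' θ * v' θ' = 1 → v' y * v' y' = w N0 → H0 ≤ v' θ → False := by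
    intro y y' θ θ' e1 e2 e3 e4 e5
    refine hH0 (v' θ) e5 (v' y) (v' y') (apply_nonneg v' _) (apply_nonneg v' _)
      (fun k => v' (y - algebraMap L F (ε k : L))) (fun k => v' (y' - algebraMap L F (ε k : L)))
      (htk v' w hv' y) (fun k _ => apply_nonneg v' _) ?_ (val_root v' g _ y θ e1) ?_
      (by rw [e4]; exact hNlow) (by rw [e4]; exact hNup)
    · intro k hk hlt
      have h1 := (tk v' y' (algebraMap L F (ε k : L))).2.2
      rw [hv'] at h1
      have h2 := hS1 k hk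
      linarith
    · have h1 := val_root v' g (fun k => algebraMap L F (ε k : L)) y' θ' e2
      rw [h1]
      linear_combination 4 * e3
  have hXX : v' x * v' (c x) = w N0 := by rw [← map_mul, ← hN0, hv']
  rcases le_or_gt H0 (v' η) with h | h
  · exact key x (c x) η η' hx hx' (hηv v') hXX h
  · rcases le_or_gt H0 (v' η') with h' | h'
    · exact key (c x) x η' η hx' hx (by rw [mul_comm]; exact hηv v') (by rw [mul_comm]; exact hXX) h'
    · have h1 := place_add v' η η'
      rw [hsum, hal, hv'] at h1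
      linarith

end

end H25ES
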