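import Mathlib
import Pool.Agent.H25.ES.NoRoot
import Pool.Agent.H25.ES.Field

/-!
# Assembly
-/

set_option autoImplicit false
set_option linter.unusedSectionVars false

namespace H25ES

open NumberField Polynomial

section
variable {L F : Type} [Field L] [NumberField L] [Field F] [NumberField F] [Algebra L F]

theorem eta_exists (a : 𝓞 L) (r : F) (hr : r ^ 2 = algebraMap L F ((a : L) ^ 2 + 4)) :
    ∃ η : 𝓞 F, (η : F) = (algebraMap L F (a : L) + r) / 2 ∧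
      η ^ 2 = algebraMap (𝓞 L) (𝓞 F) a * η + 1 := by
  obtain ⟨z, hz⟩ : ∃ z, z = (algebraMap L F (a : L) + r) / 2 := ⟨_, rfl⟩
  have hali : IsIntegral ℤ (algebraMap L F (a : L)) :=
    a.isIntegral_coe.map (algebraMap L F).toIntAlgHom
  have hr2 : r ^ 2 = algebraMap L F (a : L) ^ 2 + 4 := by
    rw [hr, map_add, map_pow, map_ofNat]
  have hzq : z ^ 2 = algebraMap L F (a : L) * z + 1 := by
    rw [hz]
    linear_combination (1 / 4 : F) * hr2
  have hz2 : IsIntegral (integralClosure ℤ F) z := by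
    refine ⟨X ^ 2 - (C ⟨algebraMap L F (a : L), hali⟩ * X + C 1), ?_, ?_⟩
    · refine monic_X_pow_sub ?_
      refine lt_of_le_of_lt degree_linear_le ?_
      norm_num
    · rw [eval₂_sub, eval₂_add, eval₂_mul, eval₂_pow, eval₂_X, eval₂_C, eval₂_C, map_one]
      change z ^ 2 - (algebraMap L F (a : L) * z + 1) = 0
      rw [hzq, sub_self]
  have hzi : IsIntegral ℤ z := isIntegral_trans z hz2
  obtain ⟨Z, hZ⟩ : ∃ Z : 𝓞 F, (Z : F) = z := ⟨⟨z, hzi⟩, rfl⟩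
  refine ⟨Z, by rw [hZ, hz], ?_⟩
  apply RingOfIntegers.ext
  have e1 : ((Z ^ 2 : 𝓞 F) : F) = (Z : F) ^ 2 := map_pow (algebraMap (𝓞 F) F) Z 2
  have e2 : ((algebraMap (𝓞 L) (𝓞 F) a * Z + 1 : 𝓞 F) : F) = algebraMap L F (a : L) * Z + 1 := by
    have h1 := map_add (algebraMap (𝓞 F) F) (algebraMap (𝓞 L) (𝓞 F) a * Z) 1
    rw [map_mul, map_one] at h1
    exact h1
  rw [e1, e2, hZ]
  exact hzq

end

theorem curves (p : ℕ) (hp : p.Prime) (hp2 : p ≠ 2) (L : Type) [Field L] [NumberField L]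
    [IsTotallyReal L] (hL : 1 < Module.finrank ℚ L) (ω : 𝓞 L)
    (hω : ∃ ζ : AlgebraicClosure L, IsPrimitiveRoot ζ p ∧
      algebraMap L (AlgebraicClosure L) (ω : L) = ζ + ζ⁻¹) :
    ∃ Φ : (𝓞 L)[X], Φ.Monic ∧ Φ.natDegree = (p - 1) / 2 ∧ (X * Φ).Separable ∧
      C ((2 - ω) ^ p) * X * Φ ^ 2 = (dickson 1 (1 : 𝓞 L) p).comp (C (2 - ω) * X - 2) + 2 ∧
      ∀ N : ℕ, ∃ a : Fin N → 𝓞 L,
        (∀ i, ¬ IsSquare ((a i : L) ^ 2 + 4)) ∧
        (∀ i j, i ≠ j → ¬ IsSquare (((a i : L) ^ 2 + 4) * ((a j : L) ^ 2 + 4))) ∧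
        (∀ i, IsUnit (1 + (2 - ω) ^ p * a i - ((2 - ω) ^ p) ^ 2)) ∧
        (∀ i, ∀ σ : L →+* ℝ, 0 < σ ((1 + (2 - ω) ^ p * a i - ((2 - ω) ^ p) ^ 2 : 𝓞 L) : L)) ∧
        ∀ i, ∀ (F : Type) [Field F] [NumberField F] [Algebra L F], Module.finrank L F = 2 →
          (∃ r : F, r ^ 2 = algebraMap L F ((a i : L) ^ 2 + 4)) →
          IsTotallyReal F ∧ ∃ η : 𝓞 F, IsUnit η ∧
            IsUnit (1 + algebraMap (𝓞 L) (𝓞 F) ((2 - ω) ^ p) * η) ∧
            η ^ 2 = algebraMap (𝓞 L) (𝓞 F) (a i) * η + 1 ∧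
            (∀ (k : Type) [Field k] (φ : 𝓞 F →+* k) (x y : k),
              ¬ (y ^ 2 + (((X * Φ).map (algebraMap (𝓞 L) (𝓞 F))).map φ).eval x * y = φ η * x ∧
                2 * y + (((X * Φ).map (algebraMap (𝓞 L) (𝓞 F))).map φ).eval x = 0 ∧
                (derivative (((X * Φ).map (algebraMap (𝓞 L) (𝓞 F))).map φ)).eval x * y = φ η)) ∧
            ∀ x : F, x * ((Φ.map (algebraMap (𝓞 L) F)).eval x) ^ 2 + 4 * (η : F) ≠ 0 := by
  obtain ⟨ζ, hζ, hζω⟩ := hω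
  obtain ⟨g, hpg⟩ : ∃ g, p = 2 * g + 1 := hp.odd_of_ne_two hp2
  have hg : 1 ≤ g := by have := hp.two_le; omega
  have hgp : (p - 1) / 2 = g := by omega
  obtain ⟨ι, hι0⟩ : ∃ ι : 𝓞 L →+* AlgebraicClosure L,
      ι = (algebraMap L (AlgebraicClosure L)).comp (algebraMap (𝓞 L) L) := ⟨_, rfl⟩
  have hι : Function.Injective ι := by
    rw [hι0]
    exact (algebraMap L (AlgebraicClosure L)).injective.comp
      (FaithfulSMul.algebraMap_injective (𝓞 L) L)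
  have hιω : ι ω = ζ + ζ⁻¹ := by rw [hι0]; exact hζω
  choose ε hε hε2 using fun k => eps_exists ω k
  have hπ := pi_ne ι p ζ ω hζ hp hιω
  rw [hgp]
  refine ⟨phi ε g, phi_monic ε g, phi_natDegree ε g,
    xphi_separable ι hι p g hpg ζ ω hζ hp hιω ε hε,
    phi_dick ι hι p g hpg ζ ω hζ hp hιω ε hε, ?_⟩
  intro N
  obtain ⟨w⟩ : Nonempty (InfinitePlace L) := inferInstance
  obtain ⟨q, hq⟩ : ∃ q, q = (2 - ω) ^ p := ⟨_, rfl⟩
  have hq0 : q ≠ 0 := by rw [hq]; exact pow_ne_zero _ hπ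
  obtain ⟨A, hA⟩ : ∃ A : ℝ, A = ∑ w : InfinitePlace L, (w (q : L) + (w (q : L))⁻¹) := ⟨_, rfl⟩
  have hA0 : 0 ≤ A := by
    rw [hA]
    exact Finset.sum_nonneg fun v _ => add_nonneg (apply_nonneg v _) (inv_nonneg.2 (apply_nonneg v _))
  obtain ⟨T, hT⟩ := no_root_exists w g hg ε
    (fun k hk => (eps_isUnit ι hι p g hpg ζ ω hζ hp hιω ε hε hk).ne_zero) A hA0
  obtain ⟨v, hv, a, ha1, ha2, ha3, ha4, ha5⟩ := seq_exists hL w q hq0 T A hA
  have hun : ∀ n, 1 + q * a n - q ^ 2 = (v : 𝓞 L) ^ n := fun n => by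
    rw [ha1]; ring
  rw [← hq]
  refine ⟨fun i => a (N + 1 + i), fun i => ha4 _ (by omega), ?_, ?_, ?_, ?_⟩
  · intro i j hij
    have h1 := i.isLt
    have h2 := j.isLt
    rcases lt_or_gt_of_ne (fun h => hij (Fin.ext h) : (i : ℕ) ≠ j) with h | h
    · have := ha5 (N + 1 + i) (N + 1 + j) (by omega) (by omega)
      rwa [mul_comm] at this
    · exact ha5 (N + 1 + j) (N + 1 + i) (by omega) (by omega)
  · intro i
    rw [hun]
    exact v.isUnit.pow _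
  · intro i σ
    rw [hun, c_pow, map_pow]
    exact pow_pos (hv σ) _
  · intro i F _ _ _ hF hr
    obtain ⟨r, hr⟩ := hr
    have hsq := ha4 (N + 1 + i) (by omega)
    refine ⟨totally_real hF _ r hr hsq, ?_⟩
    obtain ⟨η, hη1, hη2⟩ := eta_exists _ r hr
    have hu1 : IsUnit η := by
      refine IsUnit.of_mul_eq_one (η - algebraMap (𝓞 L) (𝓞 F) (a (N + 1 + i))) ?_
      linear_combination hη2
    have hu2 : IsUnit (1 + algebraMap (𝓞 L) (𝓞 F) q * η) := by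
      have h1 : (1 + algebraMap (𝓞 L) (𝓞 F) q * η)
          * (1 + algebraMap (𝓞 L) (𝓞 F) q * (algebraMap (𝓞 L) (𝓞 F) (a (N + 1 + i)) - η))
          = algebraMap (𝓞 L) (𝓞 F) ((v : 𝓞 L) ^ (N + 1 + (i : ℕ))) := by
        rw [← hun, map_sub, map_add, map_mul, map_one, map_pow]
        linear_combination (- (algebraMap (𝓞 L) (𝓞 F) q) ^ 2) * hη2
      have h2 : IsUnit (algebraMap (𝓞 L) (𝓞 F) ((v : 𝓞 L) ^ (N + 1 + (i : ℕ)))) :=
        (v.isUnit.pow _).map _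
      rw [← h1] at h2
      exact isUnit_of_mul_isUnit_left h2
    refine ⟨η, hu1, hu2, hη2, ?_, ?_⟩
    · intro k _ φ x y ⟨s1, s2, s3⟩
      rw [Polynomial.map_map] at s1 s2 s3
      refine smooth_hom ι hι p g hpg ζ ω hζ hp hιω ε hε hε2
        (φ.comp (algebraMap (𝓞 L) (𝓞 F))) (φ η) ?_ ?_ x y s1 s2 s3
      · exact (hu1.map φ).ne_zero
      · have h3 := (hu2.map φ).ne_zero
        rw [map_add, map_one, map_mul, hq, map_pow, map_pow] at h3
        exact h3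
    · intro x
      have h1 := hT _ (ha2 (N + 1 + i)) (ha3 _ (by omega)) hsq F hF r hr x
      rw [hη1]
      have h2 : ((phi ε g).map (algebraMap (𝓞 L) F)).eval x
          = ∏ k ∈ Finset.Icc 1 g, (x - algebraMap L F (ε k : L)) := by
        rw [phi, Polynomial.map_prod, eval_prod]
        refine Finset.prod_congr rfl fun k _ => ?_
        rw [Polynomial.map_sub, map_X, map_C, eval_sub, eval_X, eval_C]
        congr 1
      rw [h2]
      exact h1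

end H25ES
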